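import Mathlib

/-!
# Blichfeldt's divisibility: the order of a finite group with a faithful complex representation of
degree `n` and integer character divides `(2 n)!`
-/

set_option autoImplicit false

open Module

namespace Pool.Agent.Helper17

section

variable {G : Type*} [Group G] {V : Type} [AddCommGroup V] [Module ℂ V] [FiniteDimensional ℂ V]

theorem exists_rep_pow (ρ : Representation ℂ G V) (j : ℕ) :
    ∃ (W : Type) (_ : AddCommGroup W) (_ : Module ℂ W) (_ : FiniteDimensional ℂ W)
      (σ : Representation ℂ G W), ∀ g, σ.character g = ρ.character g ^ j := by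
  induction j with
  | zero =>
    refine ⟨ℂ, inferInstance, inferInstance, inferInstance, Representation.trivial ℂ G ℂ, ?_⟩
    intro g
    simp [Representation.character]
  | succ j ih =>
    obtain ⟨W, _, _, _, σ, hσ⟩ := ih
    refine ⟨TensorProduct ℂ W V, inferInstance, inferInstance, inferInstance, σ.tprod ρ, ?_⟩
    intro g
    rw [Representation.char_tensor, Pi.mul_apply, hσ, pow_succ]

theorem sum_character_pow [Fintype G] (ρ : Representation ℂ G V) (j : ℕ) :
    ∃ z : ℤ, ∑ g, ρ.character g ^ j = (Nat.card G : ℂ) * z := by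
  obtain ⟨W, _, _, _, σ, hσ⟩ := exists_rep_pow ρ j
  have hne : (Nat.card G : ℂ) ≠ 0 := by exact_mod_cast Nat.card_pos.ne'
  let _ : Invertible (Nat.card G : ℂ) := invertibleOfNonzero hne
  have h1 := Representation.card_inv_mul_sum_char_eq_finrank σ
  refine ⟨finrank ℂ (Representation.invariants σ), ?_⟩
  push_cast
  rw [← h1, ← mul_assoc, mul_inv_cancel₀ hne, one_mul]
  exact Finset.sum_congr rfl fun g _ => (hσ g).symm

theorem sum_eval [Fintype G] (ρ : Representation ℂ G V) (t : G → ℤ)
    (ht : ∀ g, ρ.character g = t g) (P : Polynomial ℤ) :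
    ∃ z : ℤ, ∑ g, P.eval (t g) = (Nat.card G : ℤ) * z := by
  induction P using Polynomial.induction_on' with
  | add P Q hP hQ =>
    obtain ⟨a, ha⟩ := hP
    obtain ⟨b, hb⟩ := hQ
    refine ⟨a + b, ?_⟩
    simp only [Polynomial.eval_add, Finset.sum_add_distrib, ha, hb]
    ring
  | monomial j c =>
    obtain ⟨a, ha⟩ := sum_character_pow ρ j
    refine ⟨c * a, ?_⟩
    simp only [Polynomial.eval_monomial]
    rw [← Finset.mul_sum]
    have h1 : ∑ g, t g ^ j = (Nat.card G : ℤ) * a := by
      have h2 : ((∑ g, t g ^ j : ℤ) : ℂ) = ((Nat.card G : ℤ) * a : ℤ) := by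
        push_cast
        rw [← ha]
        exact Finset.sum_congr rfl fun g _ => by rw [ht]
      exact_mod_cast h2
    rw [h1]
    ring

theorem card_dvd_factorial [Finite G] (ρ : Representation ℂ G V) (t : G → ℤ)
    (ht : ∀ g, ρ.character g = t g) (n : ℕ)
    (hlo : ∀ g, -(n : ℤ) ≤ t g) (hhi : ∀ g, t g ≤ n) (h1 : t 1 = n)
    (hf : ∀ g, t g = n → g = 1) :
    Nat.card G ∣ (2 * n).factorial := by
  classical
  have := Fintype.ofFinite G
  let P : Polynomial ℤ :=
    ∏ i ∈ Finset.range (2 * n), (Polynomial.X - Polynomial.C ((n : ℤ) - 1 - i))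
  have hPe : ∀ a : ℤ, P.eval a = ∏ i ∈ Finset.range (2 * n), (a - ((n : ℤ) - 1 - i)) := by
    intro a
    simp only [P, Polynomial.eval_prod, Polynomial.eval_sub, Polynomial.eval_X,
      Polynomial.eval_C]
  have hPn : P.eval (n : ℤ) = ((2 * n).factorial : ℤ) := by
    rw [hPe, ← Finset.prod_range_add_one_eq_factorial]
    push_cast
    exact Finset.prod_congr rfl fun i _ => by ring
  have hP0 : ∀ g, g ≠ 1 → P.eval (t g) = 0 := by
    intro g hg
    rw [hPe]
    have h2 : t g < n := lt_of_le_of_ne (hhi g) (fun h => hg (hf g h))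
    apply Finset.prod_eq_zero (i := ((n : ℤ) - 1 - t g).toNat)
    · rw [Finset.mem_range]
      have := hlo g
      omega
    · have : (((n : ℤ) - 1 - t g).toNat : ℤ) = (n : ℤ) - 1 - t g := Int.toNat_of_nonneg (by omega)
      rw [this]
      ring
  obtain ⟨z, hz⟩ := sum_eval ρ t ht P
  rw [Finset.sum_eq_single 1 (fun g _ hg => hP0 g hg)
    (fun h => absurd (Finset.mem_univ _) h), h1, hPn] at hz
  exact_mod_cast Dvd.intro z hz.symm

end

section Trace

variable {V : Type*} [AddCommGroup V] [Module ℂ V] [FiniteDimensional ℂ V]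

theorem norm_eq_one_of_mem_roots {T : End ℂ V} {m : ℕ} (hm : m ≠ 0) (hT : T ^ m = 1) {μ : ℂ}
    (hμ : μ ∈ T.charpoly.roots) : ‖μ‖ = 1 := by
  have hne : T.charpoly ≠ 0 := (LinearMap.charpoly_monic T).ne_zero
  have h1 : T.charpoly.IsRoot μ := (Polynomial.mem_roots hne).mp hμ
  have h2 : T.HasEigenvalue μ := (Module.End.hasEigenvalue_iff_isRoot_charpoly T μ).mpr h1
  obtain ⟨v, hv⟩ := h2.exists_hasEigenvector
  have h3 : (T ^ m) v = μ ^ m • v := hv.pow_apply m
  rw [hT, Module.End.one_apply] at h3
  have h4 : μ ^ m = 1 := by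
    have h5 : (μ ^ m - 1) • v = 0 := by rw [sub_smul, one_smul, ← h3, sub_self]
    rcases smul_eq_zero.mp h5 with h | h
    · exact sub_eq_zero.mp h
    · exact absurd h hv.2
  exact Complex.norm_eq_one_of_pow_eq_one h4 hm

theorem trace_bound {T : End ℂ V} {m : ℕ} (hm : m ≠ 0) (hT : T ^ m = 1) {z : ℤ}
    (hz : LinearMap.trace ℂ V T = z) :
    -(finrank ℂ V : ℤ) ≤ z ∧ z ≤ finrank ℂ V ∧ (z = finrank ℂ V → T = 1) := by
  have hs := IsAlgClosed.splits T.charpoly
  have htr : LinearMap.trace ℂ V T = T.charpoly.roots.sum :=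
    Module.End.trace_eq_sum_roots_charpoly_of_splits hs
  have hcard : Multiset.card T.charpoly.roots = finrank ℂ V := by
    rw [← hs.natDegree_eq_card_roots, LinearMap.charpoly_natDegree]
  have hnorm : ∀ μ ∈ T.charpoly.roots, ‖μ‖ = 1 := fun μ hμ => norm_eq_one_of_mem_roots hm hT hμ
  have hre : ∀ μ ∈ T.charpoly.roots, μ.re ≤ 1 := fun μ hμ => by
    rw [← hnorm μ hμ]
    exact Complex.re_le_norm μ
  have hre' : ∀ μ ∈ T.charpoly.roots, -1 ≤ μ.re := fun μ hμ => by
    have := Complex.abs_re_le_norm μ
    rw [hnorm μ hμ] at this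
    exact (abs_le.mp this).1
  have hzr : (z : ℝ) = (T.charpoly.roots.map Complex.re).sum := by
    have h1 : (z : ℂ) = T.charpoly.roots.sum := by rw [← hz, htr]
    have h2 := congrArg Complex.re h1
    rw [Complex.intCast_re] at h2
    rw [h2]
    exact map_multiset_sum Complex.reAddGroupHom _
  have hup : (T.charpoly.roots.map Complex.re).sum ≤ (finrank ℂ V : ℝ) := by
    have := Multiset.sum_le_card_nsmul (T.charpoly.roots.map Complex.re) 1 (by
      intro x hx
      obtain ⟨μ, hμ, rfl⟩ := Multiset.mem_map.mp hx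
      exact hre μ hμ)
    rw [Multiset.card_map, hcard] at this
    simpa using this
  have hlow : -(finrank ℂ V : ℝ) ≤ (T.charpoly.roots.map Complex.re).sum := by
    have := Multiset.card_nsmul_le_sum (s := T.charpoly.roots.map Complex.re) (a := -1) (by
      intro x hx
      obtain ⟨μ, hμ, rfl⟩ := Multiset.mem_map.mp hx
      exact hre' μ hμ)
    rw [Multiset.card_map, hcard] at this
    simpa using this
  rw [← hzr] at hup hlow
  refine ⟨by exact_mod_cast hlow, by exact_mod_cast hup, ?_⟩
  intro hzn
  -- all eigenvalues are one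
  have hall : ∀ μ ∈ T.charpoly.roots, μ = 1 := by
    intro μ hμ
    have hre1 : μ.re = 1 := by
      by_contra hne
      have hlt : μ.re < 1 := lt_of_le_of_ne (hre μ hμ) hne
      obtain ⟨s, hs'⟩ := Multiset.exists_cons_of_mem hμ
      have h1 : (T.charpoly.roots.map Complex.re).sum = μ.re + (s.map Complex.re).sum := by
        rw [hs', Multiset.map_cons, Multiset.sum_cons]
      have h2 : (s.map Complex.re).sum ≤ (Multiset.card s : ℝ) := by
        have := Multiset.sum_le_card_nsmul (s.map Complex.re) 1 (by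
          intro x hx
          obtain ⟨ν, hν, rfl⟩ := Multiset.mem_map.mp hx
          exact hre ν (by rw [hs']; exact Multiset.mem_cons_of_mem hν))
        rw [Multiset.card_map] at this
        simpa using this
      have h3 : Multiset.card T.charpoly.roots = Multiset.card s + 1 := by
        rw [hs', Multiset.card_cons]
      rw [hcard] at h3
      have h4 : (z : ℝ) = (finrank ℂ V : ℝ) := by exact_mod_cast hzn
      rw [h4, h1, h3] at hzr
      push_cast at hzr
      linarith
    have h1 := hnorm μ hμ
    have h2 : μ.im = 0 := by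
      have h3 := Complex.sq_norm μ
      rw [h1, Complex.normSq_apply, hre1] at h3
      nlinarith
    exact Complex.ext hre1 h2
  -- `T` is diagonalizable
  have hss : T.IsSemisimple := by
    have hp : Squarefree (Polynomial.X ^ m - 1 : Polynomial ℂ) := by
      apply Polynomial.Separable.squarefree
      apply Polynomial.X_pow_sub_one_separable_iff.mpr
      exact_mod_cast hm
    apply Module.End.isSemisimple_of_squarefree_aeval_eq_zero hp
    rw [map_sub, map_pow, Polynomial.aeval_X, map_one, hT, sub_self]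
  have htop : ⨆ μ : ℂ, T.eigenspace μ = ⊤ := by
    rw [← hss.iSup_maxGenEigenspace_eq_top_iff]
    exact Module.End.iSup_maxGenEigenspace_eq_top T
  have h1 : (⊤ : Submodule ℂ V) ≤ T.eigenspace 1 := by
    rw [← htop]
    apply iSup_le
    intro μ
    by_cases hμ : T.HasEigenvalue μ
    · have h2 : μ ∈ T.charpoly.roots := by
        rw [Polynomial.mem_roots (LinearMap.charpoly_monic T).ne_zero]
        exact (Module.End.hasEigenvalue_iff_isRoot_charpoly T μ).mp hμ
      rw [hall μ h2]
    · rw [Module.End.HasEigenvalue, Module.End.HasUnifEigenvalue, not_not] at hμ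
      have : T.eigenspace μ = ⊥ := hμ
      rw [this]
      exact bot_le
  ext v
  have h2 := h1 (Submodule.mem_top (x := v))
  rw [Module.End.mem_eigenspace_iff, one_smul] at h2
  exact h2

/-- The order of a finite group with a faithful complex representation with integer character
divides `(2 n)!`, where `n` is the degree. -/
theorem card_dvd_factorial_of_int {G : Type*} [Group G] [Finite G] {V : Type} [AddCommGroup V]
    [Module ℂ V] [FiniteDimensional ℂ V] (ρ : Representation ℂ G V) (t : G → ℤ)
    (ht : ∀ g, LinearMap.trace ℂ V (ρ g) = t g) (hinj : ∀ g, ρ g = 1 → g = 1) :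
    Nat.card G ∣ (2 * finrank ℂ V).factorial := by
  have hb := fun g => trace_bound (T := ρ g) (m := Nat.card G) Nat.card_pos.ne'
    (by rw [← map_pow, pow_card_eq_one', map_one]) (ht g)
  apply card_dvd_factorial ρ t ht (finrank ℂ V) (fun g => (hb g).1) (fun g => (hb g).2.1)
  · have h1 := ht 1
    rw [map_one, LinearMap.trace_one] at h1
    exact_mod_cast h1.symm
  · exact fun g hg => hinj g ((hb g).2.2 hg)

end Trace

end Pool.Agent.Helper17
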