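import Pool.Agent.Results.MP_e6a378_co.AbelianIndexBound

/-!
# Cluster groups: finiteness, and the complex representation
-/

set_option autoImplicit false

open Metric Module

namespace Pool.Agent.Helper17

open Pool.Agent.Results.MP_e6a378_co.AbelianIndexBound (toAff toAff_apply toAff_injective
  loc_of_image map_clusterGroup)

variable {d : ℕ}

/-- The cluster group of radius `τ R`, `τ ≥ 12 √d`, is finite. -/
theorem clusterGroup_finite (hd : 1 ≤ d) {R : ℝ} (hR : 0 < R) {τ ρ : ℝ}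
    (hτ : 12 * Real.sqrt d ≤ τ) (hρ : τ * R ≤ ρ)
    {X : Set (EuclideanSpace ℝ (Fin d))}
    (hsep : ∃ r : ℝ, 0 < r ∧ ∀ x ∈ X, ∀ y ∈ X, x ≠ y → r ≤ dist x y)
    (hX : ∀ z : EuclideanSpace ℝ (Fin d), ∃ x ∈ X, dist z x ≤ R)
    (hiso : ∀ x ∈ X, ∀ y ∈ X, ∃ g : EuclideanSpace ℝ (Fin d) ≃ᵢ EuclideanSpace ℝ (Fin d),
      g x = y ∧ g '' (X ∩ Metric.closedBall x ρ) = X ∩ Metric.closedBall y ρ)
    {x₀ : EuclideanSpace ℝ (Fin d)} (hx₀ : x₀ ∈ X) :
    Finite (Pool.Agent.Results.MP_e6a378_co.AbelianIndexBound.clusterGroup X x₀ (τ * R)) := by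
  obtain ⟨r, hr, hsep⟩ := hsep
  set ρ₀ : ℝ := τ * R with hρ₀
  have hτ12 : 12 * Real.sqrt d * R ≤ ρ₀ := mul_le_mul_of_nonneg_right hτ hR.le
  have hd' : (1 : ℝ) ≤ d := by exact_mod_cast hd
  have hsqrt1 : 1 ≤ Real.sqrt d := Real.one_le_sqrt.mpr hd'
  have hiso' : ∀ x ∈ X, ∀ y ∈ X,
      ∃ β : EuclideanSpace ℝ (Fin d) ≃ᵃⁱ[ℝ] EuclideanSpace ℝ (Fin d),
        β x = y ∧ Loc X β x ρ := by
    intro x hx y hy
    obtain ⟨g, hgx, hg⟩ := hiso x hx y hy
    exact ⟨toAff g, by rw [toAff_apply]; exact hgx, loc_of_image hgx hg⟩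
  have hfr : finrank ℝ (EuclideanSpace ℝ (Fin d)) = d := by simp
  have hnear : ∀ g ∈ clusterGroup X x₀ ρ₀, ∀ a : ℝ, a < 1 / 2 →
      Near (lin g) a → g = 1 := by
    intro g hg a ha hga
    refine eq_one_of_near (t := 11 / 10 * R) (ρ := ρ₀) hR hr hsep hX (by linarith) ?_ ?_ ha
      hg.1 hg.2 hga
    · rw [hfr]
      refine le_trans ?_ hτ12
      nlinarith
    · intro y hy
      obtain ⟨β, hβ, hβl⟩ := hiso' x₀ hx₀ y hy
      exact ⟨β, hβ, hβl.mono hρ⟩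
  have hfin : (clusterGroup X x₀ ρ₀ : Set
      (EuclideanSpace ℝ (Fin d) ≃ᵃⁱ[ℝ] EuclideanSpace ℝ (Fin d))).Finite := by
    by_contra hinf
    obtain ⟨s, hs, hsc⟩ := Set.Infinite.exists_subset_card_eq hinf (5 ^ (d ^ 2) + 1)
    have := card_finset_le (clusterGroup X x₀ ρ₀) hnear s (fun g hg => hs hg)
    rw [hfr] at this
    omega
  have hfinG : Finite (clusterGroup X x₀ ρ₀) := hfin
  have hmap := map_clusterGroup X x₀ ρ₀
  have hfin2 : Finite ((Pool.Agent.Results.MP_e6a378_co.AbelianIndexBound.clusterGroup X x₀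
      ρ₀).map toAff) := by
    rw [hmap]
    exact hfinG
  exact Finite.of_equiv _
    ((Pool.Agent.Results.MP_e6a378_co.AbelianIndexBound.clusterGroup X x₀
      ρ₀).equivMapOfInjective toAff toAff_injective).symm.toEquiv

/-- Regularity from a bound on the order of the cluster group of radius `τ R`. -/
theorem regular_of_card_le (hd : 1 ≤ d) {R : ℝ} (hR : 0 < R) {τ : ℝ}
    (hτ : 12 * Real.sqrt d ≤ τ) {K : ℕ} (hK : 1 ≤ K)
    {X : Set (EuclideanSpace ℝ (Fin d))}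
    (hsep : ∃ r : ℝ, 0 < r ∧ ∀ x ∈ X, ∀ y ∈ X, x ≠ y → r ≤ dist x y)
    (hX : ∀ z : EuclideanSpace ℝ (Fin d), ∃ x ∈ X, dist z x ≤ R)
    {x₀ : EuclideanSpace ℝ (Fin d)} (hx₀ : x₀ ∈ X)
    (hcard : Nat.card (Pool.Agent.Results.MP_e6a378_co.AbelianIndexBound.clusterGroup X x₀
      (τ * R)) ≤ K) {ρ : ℝ} (hρ : (τ + 21 / 10 * (Real.logb 2 K + 1)) * R ≤ ρ)
    (hiso : ∀ x ∈ X, ∀ y ∈ X, ∃ g : EuclideanSpace ℝ (Fin d) ≃ᵢ EuclideanSpace ℝ (Fin d),
      g x = y ∧ g '' (X ∩ Metric.closedBall x ρ) = X ∩ Metric.closedBall y ρ)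
    {x y : EuclideanSpace ℝ (Fin d)} (hx : x ∈ X) (hy : y ∈ X) :
    ∃ g : EuclideanSpace ℝ (Fin d) ≃ᵢ EuclideanSpace ℝ (Fin d), g x = y ∧ g '' X = X := by
  have hK' : (1 : ℝ) ≤ K := by exact_mod_cast hK
  have hlogK : 0 ≤ Real.logb 2 K := Real.logb_nonneg (by norm_num) hK'
  have hτρ : τ * R ≤ ρ := by
    refine le_trans (mul_le_mul_of_nonneg_right ?_ hR.le) hρ
    linarith
  have hfin := clusterGroup_finite hd hR hτ hτρ hsep hX hiso hx₀
  have hiso' : ∀ x ∈ X, ∀ y ∈ X,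
      ∃ β : EuclideanSpace ℝ (Fin d) ≃ᵃⁱ[ℝ] EuclideanSpace ℝ (Fin d),
        β x = y ∧ Loc X β x ρ := by
    intro x hx y hy
    obtain ⟨g, hgx, hg⟩ := hiso x hx y hy
    exact ⟨toAff g, by rw [toAff_apply]; exact hgx, loc_of_image hgx hg⟩
  have hτ0 : 0 ≤ τ * R := mul_nonneg (le_trans (by positivity) hτ) hR.le
  have hequiv := (Pool.Agent.Results.MP_e6a378_co.AbelianIndexBound.clusterGroup X x₀
      (τ * R)).equivMapOfInjective toAff toAff_injective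
  rw [map_clusterGroup] at hequiv
  have hfinG : Finite (clusterGroup X x₀ (τ * R)) := Finite.of_equiv _ hequiv.toEquiv
  have hcardG : Nat.card (clusterGroup X x₀ (τ * R)) ≤ K := by
    rw [← Nat.card_congr hequiv.toEquiv]
    exact hcard
  set m : ℕ := Nat.log 2 K + 1 with hm
  have hlt : K < 2 ^ m := Nat.lt_pow_succ_log_self (by norm_num) _
  have hm1 : (m : ℝ) ≤ Real.logb 2 K + 1 := by
    have h1 : ((Nat.log 2 K : ℕ) : ℝ) ≤ Real.logb 2 ((K : ℕ) : ℝ) := Real.natLog_le_logb _ _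
    rw [hm]
    push_cast
    linarith
  have hρρ : τ * R + m * (21 / 10 * R) ≤ ρ := by
    refine le_trans ?_ hρ
    nlinarith
  obtain ⟨g, hgx, hg⟩ := regular_of_card_lt (s := 21 / 10 * R) (ρ₀ := τ * R) hR (by linarith)
    hτ0 m K hX hρρ hiso' hx₀ hfinG hcardG hlt hx hy
  refine ⟨g.toIsometryEquiv, by simpa using hgx, ?_⟩
  ext z
  constructor
  · rintro ⟨w, hw, rfl⟩
    exact (hg w).mp hw
  · intro hz
    refine ⟨g⁻¹ z, ?_, ?_⟩
    · rw [hg, apply_inv_self']; exact hz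
    · exact apply_inv_self' g z

/-- The linear part of an isometry, as an endomorphism. -/
noncomputable def linEnd :
    (EuclideanSpace ℝ (Fin d) ≃ᵢ EuclideanSpace ℝ (Fin d)) →*
      Module.End ℝ (EuclideanSpace ℝ (Fin d)) where
  toFun g := ((lin (toAff g)).toLinearEquiv : EuclideanSpace ℝ (Fin d) →ₗ[ℝ] _)
  map_one' := by
    rw [map_one, lin_one]
    rfl
  map_mul' g h := by
    rw [map_mul, lin_mul]
    rfl

theorem linEnd_apply (g : EuclideanSpace ℝ (Fin d) ≃ᵢ EuclideanSpace ℝ (Fin d))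
    (v w : EuclideanSpace ℝ (Fin d)) : linEnd g (v - w) = g v - g w := by
  have h1 := lin_sub (toAff g) v w
  rw [toAff_apply, toAff_apply] at h1
  exact h1

theorem linEnd_injOn {x : EuclideanSpace ℝ (Fin d)}
    {g h : EuclideanSpace ℝ (Fin d) ≃ᵢ EuclideanSpace ℝ (Fin d)} (hg : g x = x) (hh : h x = x)
    (hgh : linEnd g = linEnd h) : g = h := by
  ext1 z
  have h1 := linEnd_apply g z x
  have h2 := linEnd_apply h z x
  rw [hgh, h2, hg, hh] at h1
  exact (sub_left_injective h1).symm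

/-- The complexified linear part. -/
noncomputable def cplxRep :
    (EuclideanSpace ℝ (Fin d) ≃ᵢ EuclideanSpace ℝ (Fin d)) →* Module.End ℂ (Fin d → ℂ) :=
  ((Matrix.toLinAlgEquiv' (R := ℂ) (n := Fin d) : Matrix (Fin d) (Fin d) ℂ →*
      Module.End ℂ (Fin d → ℂ)).comp
    ((algebraMap ℝ ℂ).mapMatrix (m := Fin d) : Matrix (Fin d) (Fin d) ℝ →*
      Matrix (Fin d) (Fin d) ℂ)).comp
    ((LinearMap.toMatrixAlgEquiv (EuclideanSpace.basisFun (Fin d) ℝ).toBasis :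
      Module.End ℝ (EuclideanSpace ℝ (Fin d)) →* Matrix (Fin d) (Fin d) ℝ).comp linEnd)

theorem cplxRep_injOn {x : EuclideanSpace ℝ (Fin d)}
    {g h : EuclideanSpace ℝ (Fin d) ≃ᵢ EuclideanSpace ℝ (Fin d)} (hg : g x = x) (hh : h x = x)
    (hgh : cplxRep g = cplxRep h) : g = h := by
  apply linEnd_injOn hg hh
  have h1 := (Matrix.toLinAlgEquiv' (R := ℂ) (n := Fin d)).injective hgh
  have h2 : Function.Injective ((algebraMap ℝ ℂ).mapMatrix (m := Fin d)) := by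
    intro A B hAB
    ext i j
    have := congrFun (congrFun hAB i) j
    exact (algebraMap ℝ ℂ).injective this
  have h3 := h2 h1
  exact (LinearMap.toMatrixAlgEquiv (EuclideanSpace.basisFun (Fin d) ℝ).toBasis).injective h3

end Pool.Agent.Helper17
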