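import Pool.Agent.Lib.Helper17.DeloneTower

/-!
Packing bound for commutative groups of isometries without small elements.
-/

set_option autoImplicit false

open Metric Module

namespace Pool.Agent.Helper17

universe u

variable {E : Type*} [NormedAddCommGroup E] [InnerProductSpace ℝ E]

/-- `‖A v - v‖ ^ 2 = ⟪symOp A v, v⟫`. -/
theorem norm_sub_sq_eq_symOp (A : E ≃ₗᵢ[ℝ] E) (v : E) :
    ‖A v - v‖ ^ 2 = inner ℝ (symOp A v) v := by
  rw [symOp_apply]
  simp only [inner_sub_left, inner_smul_left]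
  rw [inner_inv_left, norm_sub_sq_real, LinearIsometryEquiv.norm_map,
    ← real_inner_self_eq_norm_sq]
  have h3 : (starRingEnd ℝ) 2 = 2 := rfl
  rw [h3]
  have h4 : inner ℝ v (A v) = inner ℝ (A v) v := real_inner_comm _ _
  linarith

/-- Joint eigenspaces of a commuting family of symmetric operators, as a finite orthogonal
decomposition. -/
theorem exists_joint_decomp [FiniteDimensional ℝ E] {ι : Type u} (T : ι → E →ₗ[ℝ] E)
    (hT : ∀ i, (T i).IsSymmetric) (hC : Pairwise (Function.onFun Commute T)) :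
    ∃ (κ : Type u) (_ : Fintype κ) (V : κ → Submodule ℝ E) (c : κ → ι → ℝ)
      (b : OrthonormalBasis (Fin (finrank ℝ E)) ℝ E) (k : Fin (finrank ℝ E) → κ),
      (∀ i, V i ≠ ⊥) ∧ (∀ i v, v ∈ V i ↔ ∀ j, T j v = c i j • v) ∧ (∀ j, b j ∈ V (k j)) ∧
      ∑ i, finrank ℝ (V i) = finrank ℝ E := by
  classical
  let V : (ι → ℝ) → Submodule ℝ E := fun α => ⨅ j, End.eigenspace (T j) (α j)
  have hint : DirectSum.IsInternal V :=
    LinearMap.IsSymmetric.directSum_isInternal_of_pairwise_commute hT hC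
  have horth := LinearMap.IsSymmetric.orthogonalFamily_iInf_eigenspaces hT
  have hfin : {α | V α ≠ ⊥}.Finite :=
    WellFoundedGT.finite_ne_bot_of_iSupIndep hint.submodule_iSupIndep
  have : Fintype {α // V α ≠ ⊥} := hfin.fintype
  have hint' : DirectSum.IsInternal (fun i : {α // V α ≠ ⊥} => V i) :=
    DirectSum.isInternal_ne_bot_iff.mpr hint
  have horth' : OrthogonalFamily ℝ (fun i : {α // V α ≠ ⊥} => V i)
      fun i => (V i).subtypeₗᵢ := horth.comp Subtype.val_injective
  refine ⟨{α // V α ≠ ⊥}, inferInstance, fun i => V i, fun i => i.1,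
    hint'.subordinateOrthonormalBasis rfl horth',
    fun j => hint'.subordinateOrthonormalBasisIndex rfl j horth', fun i => i.2, ?_, ?_, ?_⟩
  · intro i v
    simp only [V, Submodule.mem_iInf, End.mem_eigenspace_iff]
  · exact fun j => hint'.subordinateOrthonormalBasis_subordinate rfl j horth'
  · have h1 := (LinearEquiv.ofBijective
      (DirectSum.coeLinearMap fun i : {α // V α ≠ ⊥} => V i) hint').finrank_eq
    rw [← h1, Module.finrank_directSum]

/-- A commuting set of isometries (closed under `g⁻¹ * h`) without small elements has at most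
`5 ^ n` elements. -/
theorem card_finset_le_of_comm [FiniteDimensional ℝ E] (G : Subgroup (E ≃ᵃⁱ[ℝ] E))
    (hcomm : ∀ g ∈ G, ∀ h ∈ G, g * h = h * g)
    (hG : ∀ g ∈ G, ∀ a : ℝ, a < 1 / 2 → Near (lin g) a → g = 1)
    (s : Finset (E ≃ᵃⁱ[ℝ] E)) (hs : ∀ g ∈ s, g ∈ G) :
    s.card ≤ 5 ^ (finrank ℝ E) := by
  classical
  obtain ⟨κ, hκ, V, c, b, k, hne, hV, hb, hsum⟩ :=
    exists_joint_decomp (fun g : G => symOp (lin (g : E ≃ᵃⁱ[ℝ] E)))
      (fun g => symOp_isSymmetric _) (fun g h _ => symOp_commute (by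
        rw [← lin_mul, ← lin_mul, hcomm g g.2 h h.2]))
  -- unit vectors in the joint eigenspaces
  have hunit : ∀ i, ∃ e ∈ V i, ‖e‖ = 1 := by
    intro i
    obtain ⟨u, hu, hu0⟩ := Submodule.exists_mem_ne_zero_of_ne_bot (hne i)
    refine ⟨(‖u‖)⁻¹ • u, Submodule.smul_mem _ _ hu, ?_⟩
    have hnu : 0 < ‖u‖ := norm_pos_iff.mpr hu0
    rw [norm_smul, Real.norm_of_nonneg (by positivity)]
    field_simp
  choose e heV hen using hunit
  -- `G` preserves the joint eigenspaces
  have hpres : ∀ g ∈ G, ∀ i, ∀ v ∈ V i, lin g v ∈ V i := by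
    intro g hg i v hv
    rw [hV] at hv ⊢
    intro h
    have h1 := symOp_commute (A := lin g) (B := lin (h : E ≃ᵃⁱ[ℝ] E)) (by
        rw [← lin_mul, ← lin_mul, hcomm g hg h h.2])
    -- `symOp (lin h)` commutes with `lin g`
    have hl : lin g * lin (h : E ≃ᵃⁱ[ℝ] E) = lin (h : E ≃ᵃⁱ[ℝ] E) * lin g := by
      rw [← lin_mul, ← lin_mul, hcomm g hg h h.2]
    have hC : Commute (lin g) (lin (h : E ≃ᵃⁱ[ℝ] E)) := hl
    have e1 : lin g (lin (h : E ≃ᵃⁱ[ℝ] E) v) = lin (h : E ≃ᵃⁱ[ℝ] E) (lin g v) := by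
      have := congrArg (fun g : E ≃ₗᵢ[ℝ] E => g v) hl
      simpa only [lmul_apply'] using this
    have e2 : lin g ((lin (h : E ≃ᵃⁱ[ℝ] E))⁻¹ v) = (lin (h : E ≃ᵃⁱ[ℝ] E))⁻¹ (lin g v) := by
      have := congrArg (fun g : E ≃ₗᵢ[ℝ] E => g v) hC.inv_right.eq
      simpa only [lmul_apply'] using this
    calc symOp (lin (h : E ≃ᵃⁱ[ℝ] E)) (lin g v)
        = lin g (symOp (lin (h : E ≃ᵃⁱ[ℝ] E)) v) := by
          rw [symOp_apply, symOp_apply, map_sub, map_sub, map_smul, e1, e2]
      _ = c i h • lin g v := by rw [hv h, map_smul]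
  -- the embedding into the product of the joint eigenspaces
  let f : (E ≃ᵃⁱ[ℝ] E) → (∀ i, V i) := fun g i =>
    if hg : g ∈ G then (2 : ℝ) • (⟨lin g (e i), hpres g hg i _ (heV i)⟩ : V i) else 0
  have hfapp : ∀ g (hg : g ∈ G) i, ((f g i : V i) : E) = (2 : ℝ) • lin g (e i) := by
    intro g hg i
    simp only [f, dif_pos hg]
    rfl
  have hsepf : ∀ g ∈ s, ∀ h ∈ s, g ≠ h → 1 ≤ ‖f g - f h‖ := by
    intro g hg h hh hne'
    by_contra hlt
    push Not at hlt
    apply hne'
    have hgG := hs g hg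
    have hhG := hs h hh
    set q := h⁻¹ * g with hq
    have hqG : q ∈ G := G.mul_mem (G.inv_mem hhG) hgG
    set a := ‖f g - f h‖ / 2 with ha
    have ha0 : 0 ≤ a := by positivity
    have hqe : ∀ i, ‖lin q (e i) - e i‖ ≤ a := by
      intro i
      have h1 : ‖(f g - f h) i‖ ≤ ‖f g - f h‖ := norm_le_pi_norm _ i
      have h2 : ‖(f g - f h) i‖ = 2 * ‖lin g (e i) - lin h (e i)‖ := by
        rw [Pi.sub_apply, Submodule.coe_norm, Submodule.coe_sub, hfapp g hgG, hfapp h hhG,
          ← smul_sub, norm_smul]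
        simp
      have h3 : lin q (e i) - e i = (lin h)⁻¹ (lin g (e i) - lin h (e i)) := by
        rw [hq, lin_mul, lin_inv, lmul_apply', map_sub, linv_apply_self']
      rw [h3, LinearIsometryEquiv.norm_map]
      linarith
    have hcq : ∀ i, c i ⟨q, hqG⟩ ≤ a ^ 2 := by
      intro i
      have h1 := norm_sub_sq_eq_symOp (lin q) (e i)
      have h2 := (hV i (e i)).mp (heV i) ⟨q, hqG⟩
      simp only at h2
      rw [h2, inner_smul_left, real_inner_self_eq_norm_sq, hen i] at h1
      simp only [conj_trivial, one_pow, mul_one] at h1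
      rw [← h1]
      exact pow_le_pow_left₀ (norm_nonneg _) (hqe i) 2
    have hnear : Near (lin q) a := by
      intro v
      have h1 : ‖lin q v - v‖ ^ 2 ≤ (a * ‖v‖) ^ 2 := by
        rw [norm_sub_sq_eq_symOp, ← b.sum_inner_mul_inner, mul_pow, ← b.sum_sq_norm_inner_right v,
          Finset.mul_sum]
        apply Finset.sum_le_sum
        intro j _
        have h2 := (hV (k j) (b j)).mp (hb j) ⟨q, hqG⟩
        simp only at h2
        rw [symOp_isSymmetric, h2, inner_smul_right, Real.norm_eq_abs, sq_abs,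
          real_inner_comm (b j) v]
        have h3 := hcq (k j)
        nlinarith [sq_nonneg (inner ℝ (b j) v)]
      exact le_of_sq_le_sq h1 (by positivity) 
    have h1 : q = 1 := hG q hqG a (by rw [ha]; linarith) hnear
    exact (inv_mul_eq_one.mp h1).symm
  have hinj : Set.InjOn f s := by
    intro g hg h hh hgh
    by_contra hne'
    have := hsepf g hg h hh hne'
    rw [hgh, sub_self, norm_zero] at this
    linarith
  have hcard : (s.image f).card = s.card := Finset.card_image_of_injOn hinj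
  have hfr : finrank ℝ (∀ i, V i) = finrank ℝ E := by
    rw [Module.finrank_pi_fintype, hsum]
  rw [← hcard, ← hfr]
  apply Besicovitch.card_le_of_separated
  · intro d hd
    obtain ⟨g, hg, rfl⟩ := Finset.mem_image.mp hd
    rw [pi_norm_le_iff_of_nonneg (by norm_num)]
    intro i
    rw [Submodule.coe_norm, hfapp g (hs g hg), norm_smul, LinearIsometryEquiv.norm_map, hen]
    simp
  · intro d hd d' hd' hdd
    obtain ⟨g, hg, rfl⟩ := Finset.mem_image.mp hd
    obtain ⟨h, hh, rfl⟩ := Finset.mem_image.mp hd'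
    exact hsepf g hg h hh (fun hgh => hdd (by rw [hgh]))

end Pool.Agent.Helper17
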