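import Pool.Agent.Lib.Helper17.DeloneKey

/-!
Small local symmetries about different points commute.
-/

set_option autoImplicit false

open Metric

namespace Pool.Agent.Helper17

variable {E : Type*} [NormedAddCommGroup E] [InnerProductSpace ℝ E]

/-- An affine isometry fixing all points of an `R`-dense set within `3 * R` of a point of the set
is the identity. -/
theorem eq_one_of_fix [FiniteDimensional ℝ E] {X : Set E} {R : ℝ} (hR : 0 < R)
    (hX : ∀ z : E, ∃ x ∈ X, dist z x ≤ R) {x : E} (hx : x ∈ X) {γ : E ≃ᵃⁱ[ℝ] E}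
    (hfix : ∀ z ∈ X, dist z x ≤ 3 * R → γ z = z) : γ = 1 := by
  have hxx : γ x = x := hfix x hx (by simp; linarith)
  let K : Submodule ℝ E := LinearMap.ker ((lin γ).toLinearEquiv.toLinearMap - LinearMap.id)
  have hK : ∀ v, v ∈ K ↔ lin γ v = v := by
    intro v
    simp [K, sub_eq_zero]
  have htop : K = ⊤ := by
    by_contra hne
    have h1 : Kᗮ ≠ ⊥ := by
      intro h
      exact hne (Submodule.orthogonal_eq_bot_iff.mp h)
    obtain ⟨u, hu, hu0⟩ := Submodule.exists_mem_ne_zero_of_ne_bot h1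
    set w : E := (2 * R / ‖u‖) • u with hw
    have hnu : 0 < ‖u‖ := norm_pos_iff.mpr hu0
    have hwn : ‖w‖ = 2 * R := by
      rw [hw, norm_smul, Real.norm_of_nonneg (by positivity)]
      field_simp
    have hwK : w ∈ Kᗮ := Submodule.smul_mem _ _ hu
    obtain ⟨z, hz, hzd⟩ := hX (x + w)
    have h2 : dist z x ≤ 3 * R := by
      have h3 := dist_triangle z (x + w) x
      have h4 : dist (x + w) x = ‖w‖ := by rw [dist_eq_norm]; congr 1; abel
      rw [dist_comm z (x + w)] at h3
      linarith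
    have h5 : z - x ∈ K := by
      rw [hK, lin_sub, hfix z hz h2, hxx]
    have h6 : inner ℝ (z - x) w = (0 : ℝ) := Submodule.inner_right_of_mem_orthogonal h5 hwK
    have h7 : ‖z - x - w‖ ^ 2 = ‖z - x‖ ^ 2 + ‖w‖ ^ 2 := by
      rw [norm_sub_sq_real, h6]; ring
    have h8 : ‖z - x - w‖ ≤ R := by
      rw [dist_comm, dist_eq_norm] at hzd
      have : z - x - w = z - (x + w) := by abel
      rwa [this]
    have h9 : ‖z - x - w‖ ^ 2 ≤ R ^ 2 := pow_le_pow_left₀ (norm_nonneg _) h8 2
    rw [h7, hwn] at h9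
    nlinarith [sq_nonneg ‖z - x‖]
  have hlin : ∀ v, lin γ v = v := fun v => (hK v).mp (by rw [htop]; trivial)
  ext z
  have h1 := lin_sub γ z x
  rw [hlin, hxx] at h1
  have : γ z = z := by
    have h2 := congrArg (· + x) h1
    simpa using h2.symm
  simpa using this

/-- The iterated commutators `γ 0 = α'`, `γ (k+1) = [α, γ k]`. -/
noncomputable def iterComm (α α' : E ≃ᵃⁱ[ℝ] E) : ℕ → (E ≃ᵃⁱ[ℝ] E)
  | 0 => α'
  | k + 1 => α * iterComm α α' k * α⁻¹ * (iterComm α α' k)⁻¹

/-- **Key lemma.** Two local symmetries of a Delone set about points `x` and `y`, both close to the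
identity, commute, provided they are valid on balls of radius at least `2 * dist x y + 3 * R`. -/
theorem commute_of_near [FiniteDimensional ℝ E] {X : Set E} {R r : ℝ} (hR : 0 < R) (hr : 0 < r)
    (hsep : ∀ x ∈ X, ∀ y ∈ X, x ≠ y → r ≤ dist x y)
    (hX : ∀ z : E, ∃ x ∈ X, dist z x ≤ R)
    {x y : E} (hx : x ∈ X) {α α' : E ≃ᵃⁱ[ℝ] E} {ρ a : ℝ}
    (hρ : 2 * dist x y + 3 * R ≤ ρ) (ha0 : 0 ≤ a) (ha : a < 1 / 2)
    (hαx : α x = x) (hαl : Loc X α x ρ) (hαn : Near (lin α) a)
    (hα'y : α' y = y) (hα'l : Loc X α' y ρ) (hα'n : Near (lin α') a) :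
    α * α' = α' * α := by
  set D := dist x y with hD
  have hD0 : 0 ≤ D := dist_nonneg
  set γ := iterComm α α' with hγdef
  have hγ0 : γ 0 = α' := rfl
  have hγs : ∀ k, γ (k + 1) = α * γ k * α⁻¹ * (γ k)⁻¹ := fun k => rfl
  -- displacement
  have hdisp : ∀ k, dist (γ k x) x ≤ D * (1 / 2) ^ (k + 1) := by
    intro k
    induction k with
    | zero =>
      rw [hγ0, dist_eq_norm]
      have h1 : α' x - x = lin α' (x - y) - (x - y) := by
        rw [lin_sub, hα'y]; abel
      rw [h1]
      calc ‖lin α' (x - y) - (x - y)‖ ≤ a * ‖x - y‖ := hα'n _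
        _ = a * D := by rw [hD, dist_eq_norm]
        _ ≤ D * (1 / 2) ^ (0 + 1) := by nlinarith
    | succ k ih =>
      rw [hγs]
      calc dist ((α * γ k * α⁻¹ * (γ k)⁻¹) x) x ≤ a * dist (γ k x) x := comm_disp hαx hαn
        _ ≤ (1 / 2) * dist (γ k x) x := by
            apply mul_le_mul_of_nonneg_right ha.le dist_nonneg
        _ ≤ (1 / 2) * (D * (1 / 2) ^ (k + 1)) := by linarith
        _ = D * (1 / 2) ^ (k + 1 + 1) := by ring
  -- linear part
  have hnear : ∀ k, Near (lin (γ k)) (a * (2 * a) ^ k) := by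
    intro k
    induction k with
    | zero => simpa [hγ0] using hα'n
    | succ k ih =>
      rw [hγs, lin_mul, lin_mul, lin_mul, lin_inv, lin_inv]
      have := near_comm hαn ih ha0 (by positivity)
      refine this.mono (le_of_eq ?_)
      ring
  -- validity
  have hloc : ∀ k, Loc X (γ k) x (ρ - D * (2 - (1 / 2) ^ k)) := by
    intro k
    induction k with
    | zero =>
      rw [hγ0]
      apply hα'l.shift
      simp only [pow_zero]
      rw [← hD]
      linarith
    | succ k ih =>
      rw [hγs]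
      have h1 := hdisp k
      have hp : (0 : ℝ) < (1 / 2) ^ k := by positivity
      have hp1 : ((1 : ℝ) / 2) ^ k ≤ 1 := pow_le_one₀ (by norm_num) (by norm_num)
      have h2 : ρ - D * (2 - (1 / 2) ^ k) + dist (γ k x) x ≤ ρ := by
        have : D * (1 / 2) ^ (k + 1) = D * (1 / 2) ^ k * (1 / 2) := by ring
        have h3 : D * (1 / 2) ^ k ≤ D := by nlinarith
        nlinarith
      have h3 := comm_loc hαx hαl ih h2
      apply h3.mono
      have : D * (1 / 2) ^ (k + 1) = D * (1 / 2) ^ k * (1 / 2) := by ring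
      nlinarith
  -- eventually trivial
  have hev : ∃ k, γ (k + 1) = 1 := by
    have ha2 : 2 * a < 1 := by linarith
    have ht1 : Filter.Tendsto (fun k : ℕ => D * (1 / 2 : ℝ) ^ (k + 1 + 1) +
        a * (2 * a) ^ (k + 1) * (3 * R)) Filter.atTop (nhds 0) := by
      have e1 : Filter.Tendsto (fun k : ℕ => (1 / 2 : ℝ) ^ (k + 1 + 1)) Filter.atTop (nhds 0) :=
        (tendsto_pow_atTop_nhds_zero_of_lt_one (by norm_num) (by norm_num)).comp
          (Filter.tendsto_add_atTop_nat 2)
      have e2 : Filter.Tendsto (fun k : ℕ => (2 * a) ^ (k + 1)) Filter.atTop (nhds 0) :=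
        (tendsto_pow_atTop_nhds_zero_of_lt_one (by positivity) ha2).comp
          (Filter.tendsto_add_atTop_nat 1)
      have e3 := (e1.const_mul D).add ((e2.const_mul a).mul_const (3 * R))
      simpa using e3
    have ht2 := (ht1.eventually (gt_mem_nhds hr)).exists
    obtain ⟨k, hk⟩ := ht2
    refine ⟨k, ?_⟩
    apply eq_one_of_fix hR hX hx
    intro z hz hzd
    have hp : (0 : ℝ) < (1 / 2) ^ (k + 1) := by positivity
    have h1 : γ (k + 1) z ∈ X := by
      rw [← hloc (k + 1) z]
      · exact hz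
      · nlinarith
    by_contra hne
    have h2 := hsep _ h1 _ hz hne
    have h3 : dist (γ (k + 1) z) z ≤ D * (1 / 2 : ℝ) ^ (k + 1 + 1) +
        a * (2 * a) ^ (k + 1) * (3 * R) := by
      rw [dist_eq_norm]
      have h4 : γ (k + 1) z - z = (γ (k + 1) x - x) + (lin (γ (k + 1)) (z - x) - (z - x)) := by
        rw [lin_sub]; abel
      rw [h4]
      refine (norm_add_le _ _).trans (add_le_add ?_ ?_)
      · rw [← dist_eq_norm]; exact hdisp (k + 1)
      · refine (hnear (k + 1) _).trans ?_
        apply mul_le_mul_of_nonneg_left _ (by positivity)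
        rw [← dist_eq_norm]; exact hzd
    linarith
  -- backwards
  have hback : ∀ k, γ (k + 1) = 1 → γ 1 = 1 := by
    intro k
    induction k with
    | zero => exact fun h => h
    | succ k ih =>
      intro h
      apply ih
      have h1 : α * γ (k + 1) = γ (k + 1) * α := by
        rw [hγs (k + 1)] at h
        have h2 : α * γ (k + 1) * α⁻¹ = γ (k + 1) := mul_inv_eq_one.mp h
        exact mul_inv_eq_iff_eq_mul.mp h2
      rw [hγs k] at h1 ⊢
      refine comm_eq_one (m := a * (2 * a) ^ k) hαx ?_ (hnear k) h1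
      have : (2 * a) ^ k ≤ 1 := pow_le_one₀ (by positivity) (by linarith)
      nlinarith
  obtain ⟨k, hk⟩ := hev
  have h1 := hback k hk
  rw [hγs 0, hγ0] at h1
  have h2 : α * α' * α⁻¹ = α' := mul_inv_eq_one.mp h1
  exact mul_inv_eq_iff_eq_mul.mp h2

end Pool.Agent.Helper17
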