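import Mathlib

/-!
Local isometries of Delone sets: the commutator argument.
-/

set_option autoImplicit false

open Metric

namespace Pool.Agent.Helper17

variable {E : Type*} [NormedAddCommGroup E] [InnerProductSpace ℝ E]

/-- The linear part of an affine isometry. -/
noncomputable abbrev lin (g : E ≃ᵃⁱ[ℝ] E) : E ≃ₗᵢ[ℝ] E := g.linearIsometryEquiv

/-- The linear isometry `A` moves every vector `v` by at most `m * ‖v‖`. -/
def Near (A : E ≃ₗᵢ[ℝ] E) (m : ℝ) : Prop := ∀ v, ‖A v - v‖ ≤ m * ‖v‖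

/-- `g` maps `X` to `X` in both directions on the closed ball of radius `s` about `x`. -/
def Loc (X : Set E) (g : E ≃ᵃⁱ[ℝ] E) (x : E) (s : ℝ) : Prop :=
  ∀ z, dist z x ≤ s → (z ∈ X ↔ g z ∈ X)

theorem lin_sub (g : E ≃ᵃⁱ[ℝ] E) (v w : E) : lin g (v - w) = g v - g w :=
  g.map_vsub v w

theorem lin_mul (g h : E ≃ᵃⁱ[ℝ] E) : lin (g * h) = lin g * lin h := by
  ext v
  have h1 : v = v - 0 := by simp
  rw [h1]
  rw [lin_sub]
  simp only [LinearIsometryEquiv.coe_mul, Function.comp_apply, AffineIsometryEquiv.coe_mul]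
  rw [lin_sub h, lin_sub g]

theorem lin_one : lin (1 : E ≃ᵃⁱ[ℝ] E) = 1 := by
  ext v
  have h1 : v = v - 0 := by simp
  rw [h1]
  rw [lin_sub]
  simp

theorem lin_inv (g : E ≃ᵃⁱ[ℝ] E) : lin g⁻¹ = (lin g)⁻¹ := by
  have h : lin g⁻¹ * lin g = 1 := by rw [← lin_mul, inv_mul_cancel, lin_one]
  exact eq_inv_of_mul_eq_one_left h

theorem lin_pow (g : E ≃ᵃⁱ[ℝ] E) (n : ℕ) : lin (g ^ n) = (lin g) ^ n := by
  induction n with
  | zero => simp [lin_one]
  | succ n ih => rw [pow_succ, lin_mul, ih, pow_succ]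

theorem inv_apply_self' (g : E ≃ᵃⁱ[ℝ] E) (x : E) : g⁻¹ (g x) = x := by
  simp

theorem apply_inv_self' (g : E ≃ᵃⁱ[ℝ] E) (x : E) : g (g⁻¹ x) = x := by
  simp

theorem mul_apply' (g h : E ≃ᵃⁱ[ℝ] E) (x : E) : (g * h) x = g (h x) := rfl

theorem lmul_apply' (g h : E ≃ₗᵢ[ℝ] E) (x : E) : (g * h) x = g (h x) := rfl

theorem linv_apply_self' (g : E ≃ₗᵢ[ℝ] E) (x : E) : g⁻¹ (g x) = x := by
  simp

theorem lapply_inv_self' (g : E ≃ₗᵢ[ℝ] E) (x : E) : g (g⁻¹ x) = x := by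
  simp

theorem Near.inv {A : E ≃ₗᵢ[ℝ] E} {m : ℝ} (h : Near A m) : Near A⁻¹ m := by
  intro v
  have h1 := h (A⁻¹ v)
  rw [lapply_inv_self', LinearIsometryEquiv.norm_map] at h1
  rwa [norm_sub_rev]

theorem Near.conj {A : E ≃ₗᵢ[ℝ] E} {m : ℝ} (h : Near A m) (B : E ≃ₗᵢ[ℝ] E) :
    Near (B * A * B⁻¹) m := by
  intro v
  have h1 := h (B⁻¹ v)
  rw [LinearIsometryEquiv.norm_map] at h1
  have h2 : (B * A * B⁻¹) v - v = B (A (B⁻¹ v) - B⁻¹ v) := by
    rw [map_sub, lapply_inv_self']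
    rfl
  rw [h2, LinearIsometryEquiv.norm_map]
  exact h1

theorem Near.mono {A : E ≃ₗᵢ[ℝ] E} {m m' : ℝ} (h : Near A m) (hm : m ≤ m') : Near A m' := by
  intro v
  exact (h v).trans (mul_le_mul_of_nonneg_right hm (norm_nonneg v))

/-- Commutators of isometries near the identity are nearer. -/
theorem near_comm {A B : E ≃ₗᵢ[ℝ] E} {a b : ℝ} (hA : Near A a) (hB : Near B b)
    (ha : 0 ≤ a) (hb : 0 ≤ b) : Near (A * B * A⁻¹ * B⁻¹) (2 * a * b) := by
  intro v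
  set w := A⁻¹ (B⁻¹ v) with hw
  have hv : v = B (A w) := by rw [hw, lapply_inv_self', lapply_inv_self']
  have h1 : (A * B * A⁻¹ * B⁻¹) v = A (B w) := rfl
  have hn : ‖w‖ = ‖v‖ := by rw [hw, LinearIsometryEquiv.norm_map, LinearIsometryEquiv.norm_map]
  have h2 : A (B w) - B (A w) = (A (B w - w) - (B w - w)) - (B (A w - w) - (A w - w)) := by
    simp only [map_sub]; abel
  rw [h1]
  calc ‖A (B w) - v‖ = ‖A (B w) - B (A w)‖ := by rw [← hv]
    _ = ‖(A (B w - w) - (B w - w)) - (B (A w - w) - (A w - w))‖ := by rw [h2]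
    _ ≤ ‖A (B w - w) - (B w - w)‖ + ‖B (A w - w) - (A w - w)‖ := norm_sub_le _ _
    _ ≤ a * ‖B w - w‖ + b * ‖A w - w‖ := add_le_add (hA _) (hB _)
    _ ≤ a * (b * ‖w‖) + b * (a * ‖w‖) :=
        add_le_add (mul_le_mul_of_nonneg_left (hB w) ha) (mul_le_mul_of_nonneg_left (hA w) hb)
    _ = 2 * a * b * ‖v‖ := by rw [hn]; ring

/-- Displacement of the fixed point of `α` under a commutator with `α`. -/
theorem comm_disp {α γ : E ≃ᵃⁱ[ℝ] E} {x : E} {a : ℝ} (hx : α x = x) (hα : Near (lin α) a) :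
    dist ((α * γ * α⁻¹ * γ⁻¹) x) x ≤ a * dist (γ x) x := by
  set p := γ⁻¹ x with hp
  set q := α⁻¹ p with hq
  have hx' : α⁻¹ x = x := by
    conv_lhs => rw [← hx]
    exact inv_apply_self' α x
  have h1 : (α * γ * α⁻¹ * γ⁻¹) x = α (γ q) := rfl
  have h2 : dist (α (γ q)) x = dist (γ q) x := by
    conv_lhs => rw [← hx]
    rw [hx]
    conv_lhs => rw [← hx]
    exact α.dist_map _ _
  have h3 : dist (γ q) x = dist q p := by
    have : x = γ p := by rw [hp, apply_inv_self']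
    rw [this, γ.dist_map]
  have h4 : dist q p ≤ a * dist p x := by
    rw [dist_eq_norm, dist_eq_norm]
    have h5 : q - p = (lin α)⁻¹ (p - x) - (p - x) := by
      rw [← lin_inv, lin_sub, hx']
      abel
    rw [h5]
    exact hα.inv _
  have h6 : dist p x = dist (γ x) x := by
    rw [hp, ← γ.dist_map, apply_inv_self', dist_comm]
  rw [h1, h2, h3, ← h6]
  exact h4

theorem Loc.mono {X : Set E} {g : E ≃ᵃⁱ[ℝ] E} {x : E} {s s' : ℝ} (h : Loc X g x s) (hs : s' ≤ s) :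
    Loc X g x s' := fun z hz => h z (hz.trans hs)

theorem Loc.shift {X : Set E} {g : E ≃ᵃⁱ[ℝ] E} {x y : E} {s s' : ℝ} (h : Loc X g x s)
    (hs : s' + dist y x ≤ s) : Loc X g y s' := fun z hz =>
  h z ((dist_triangle z y x).trans (by linarith))

theorem Loc.inv {X : Set E} {g : E ≃ᵃⁱ[ℝ] E} {x : E} {s : ℝ} (h : Loc X g x s) :
    Loc X g⁻¹ (g x) s := by
  intro z hz
  have h1 : dist (g⁻¹ z) x ≤ s := by
    rw [← g.dist_map, apply_inv_self']; exact hz
  have h2 := h _ h1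
  rw [apply_inv_self'] at h2
  exact h2.symm

theorem Loc.mul {X : Set E} {g h : E ≃ᵃⁱ[ℝ] E} {x : E} {s : ℝ} (hh : Loc X h x s)
    (hg : Loc X g (h x) s) : Loc X (g * h) x s := by
  intro z hz
  rw [hh z hz, mul_apply']
  exact hg (h z) (by rw [h.dist_map]; exact hz)

theorem comm_loc {X : Set E} {α γ : E ≃ᵃⁱ[ℝ] E} {x : E} {ρ s : ℝ} (hx : α x = x)
    (hα : Loc X α x ρ) (hγ : Loc X γ x s) (hs : s + dist (γ x) x ≤ ρ) :
    Loc X (α * γ * α⁻¹ * γ⁻¹) x (s - dist (γ x) x) := by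
  have hx' : α⁻¹ x = x := by
    conv_lhs => rw [← hx]
    exact inv_apply_self' α x
  have hα' : Loc X α⁻¹ x ρ := by
    have := hα.inv
    rwa [hx] at this
  intro z hz
  have hγ' : Loc X γ⁻¹ (γ x) s := hγ.inv
  have h1 : z ∈ X ↔ γ⁻¹ z ∈ X := by
    apply hγ'
    have := dist_triangle z x (γ x)
    rw [dist_comm x (γ x)] at this
    linarith
  have d1 : dist (γ⁻¹ z) x ≤ s := by
    rw [← γ.dist_map, apply_inv_self']
    have := dist_triangle z x (γ x)
    rw [dist_comm x (γ x)] at this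
    linarith
  have h2 : γ⁻¹ z ∈ X ↔ α⁻¹ (γ⁻¹ z) ∈ X := by
    apply hα'
    have := @dist_nonneg _ _ (γ x) x
    linarith
  have d2 : dist (α⁻¹ (γ⁻¹ z)) x ≤ s := by
    have : dist (α⁻¹ (γ⁻¹ z)) (α⁻¹ x) ≤ s := by rw [α⁻¹.dist_map]; exact d1
    rwa [hx'] at this
  have h3 : α⁻¹ (γ⁻¹ z) ∈ X ↔ γ (α⁻¹ (γ⁻¹ z)) ∈ X := hγ _ d2
  have d3 : dist (γ (α⁻¹ (γ⁻¹ z))) x ≤ ρ := by
    have := dist_triangle (γ (α⁻¹ (γ⁻¹ z))) (γ x) x
    rw [γ.dist_map] at this
    linarith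
  have h4 : γ (α⁻¹ (γ⁻¹ z)) ∈ X ↔ α (γ (α⁻¹ (γ⁻¹ z))) ∈ X := hα _ d3
  rw [h1, h2, h3, h4]
  rfl

/-- If all powers of `C` are within `c < 1` of the identity then `C = 1`. -/
theorem eq_one_of_pow_near {C : E ≃ₗᵢ[ℝ] E} {c : ℝ} (hc : c < 1) (h : ∀ n : ℕ, Near (C ^ n) c) :
    C = 1 := by
  ext v
  have key : ∀ j : ℕ, (2 - c) ^ j * ‖C v - v‖ ≤ ‖(C ^ (2 ^ j)) v - v‖ := by
    intro j
    induction j with
    | zero => simp
    | succ j ih =>
      set D := C ^ (2 ^ j) with hD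
      have h1 : C ^ (2 ^ (j + 1)) = D * D := by
        rw [hD, ← pow_add]; congr 1; ring
      set w := D v - v with hw
      have h2 : (D * D) v - v = 2 • w + (D w - w) := by
        rw [lmul_apply', hw, map_sub]; simp only [two_smul]; abel
      have h3 : ‖D w - w‖ ≤ c * ‖w‖ := h _ w
      have h4 : (2 - c) * ‖w‖ ≤ ‖(D * D) v - v‖ := by
        rw [h2]
        have h5 : ‖(2 : ℕ) • w‖ = 2 * ‖w‖ := by
          rw [← Nat.cast_smul_eq_nsmul ℝ, norm_smul]; simp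
        have h6 : ‖(2 : ℕ) • w‖ ≤ ‖2 • w + (D w - w)‖ + ‖D w - w‖ := by
          have := norm_sub_le (2 • w + (D w - w)) (D w - w)
          simpa using this
        linarith
      rw [h1]
      calc (2 - c) ^ (j + 1) * ‖C v - v‖ = (2 - c) * ((2 - c) ^ j * ‖C v - v‖) := by ring
        _ ≤ (2 - c) * ‖w‖ := mul_le_mul_of_nonneg_left ih (by linarith)
        _ ≤ _ := h4
  have bound : ∀ j : ℕ, (2 - c) ^ j * ‖C v - v‖ ≤ c * ‖v‖ := fun j => (key j).trans (h _ v)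
  by_contra hne
  have hpos : 0 < ‖C v - v‖ := by
    rw [norm_pos_iff, sub_ne_zero]
    simpa using hne
  obtain ⟨j, hj⟩ := pow_unbounded_of_one_lt (c * ‖v‖ / ‖C v - v‖) (show (1 : ℝ) < 2 - c by linarith)
  have := bound j
  rw [div_lt_iff₀ hpos] at hj
  linarith

/-- If `α` fixes `x` and commutes with `[α, γ]` where the linear part of `γ` is close to the
identity, then `[α, γ] = 1`. -/
theorem comm_eq_one {α γ : E ≃ᵃⁱ[ℝ] E} {x : E} {m : ℝ} (hx : α x = x) (hm : 2 * m < 1)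
    (hγ : Near (lin γ) m) (hc : α * (α * γ * α⁻¹ * γ⁻¹) = (α * γ * α⁻¹ * γ⁻¹) * α) :
    α * γ * α⁻¹ * γ⁻¹ = 1 := by
  set δ := α * γ * α⁻¹ * γ⁻¹ with hδ
  have hδγ : α * γ * α⁻¹ = δ * γ := by rw [hδ]; group
  have hpow : ∀ n : ℕ, α ^ n * γ * (α ^ n)⁻¹ = δ ^ n * γ := by
    intro n
    induction n with
    | zero => simp
    | succ n ih =>
      have hcn : α * δ ^ n = δ ^ n * α := (Commute.pow_right (show Commute α δ from hc) n)
      calc α ^ (n + 1) * γ * (α ^ (n + 1))⁻¹ = α * (α ^ n * γ * (α ^ n)⁻¹) * α⁻¹ := by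
            rw [pow_succ']; group
        _ = α * (δ ^ n * γ) * α⁻¹ := by rw [ih]
        _ = δ ^ n * (α * γ * α⁻¹) := by rw [← mul_assoc, hcn]; group
        _ = δ ^ n * (δ * γ) := by rw [hδγ]
        _ = δ ^ (n + 1) * γ := by rw [pow_succ]; group
  have hlin : lin δ = 1 := by
    apply eq_one_of_pow_near hm
    intro n w
    have h1 := congrArg lin (hpow n)
    rw [lin_mul, lin_mul, lin_mul, lin_inv, lin_pow, lin_pow] at h1
    set v := (lin γ)⁻¹ w with hv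
    have hw : w = lin γ v := by rw [hv, lapply_inv_self']
    have hn : ‖v‖ = ‖w‖ := by rw [hv, LinearIsometryEquiv.norm_map]
    have h2 : (lin δ ^ n) w = (lin α ^ n * lin γ * (lin α ^ n)⁻¹) v := by
      rw [h1, lmul_apply', hw]
    have h3 := (hγ.conj (lin α ^ n)) v
    have h4 := hγ v
    calc ‖(lin δ ^ n) w - w‖
        = ‖((lin α ^ n * lin γ * (lin α ^ n)⁻¹) v - v) - (lin γ v - v)‖ := by
          rw [h2, ← hw]; congr 1; abel
      _ ≤ m * ‖v‖ + m * ‖v‖ := (norm_sub_le _ _).trans (add_le_add h3 h4)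
      _ = 2 * m * ‖w‖ := by rw [hn]; ring
  set t := δ x - x with ht
  have htr : ∀ z, δ z = z + t := by
    intro z
    have h1 := lin_sub δ z x
    rw [hlin] at h1
    simp only [LinearIsometryEquiv.coe_one, id_eq] at h1
    rw [ht]
    have : δ z = (z - x) + δ x := by rw [h1]; abel
    rw [this]; abel
  have htrn : ∀ (n : ℕ) (z : E), (δ ^ n) z = z + n • t := by
    intro n
    induction n with
    | zero => intro z; simp
    | succ n ih =>
      intro z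
      rw [pow_succ', mul_apply', ih, htr, succ_nsmul]; abel
  have hxn : ∀ n : ℕ, (α ^ n) x = x := by
    intro n
    induction n with
    | zero => simp
    | succ n ih => rw [pow_succ', mul_apply', ih, hx]
  have hxn' : ∀ n : ℕ, (α ^ n)⁻¹ x = x := by
    intro n
    conv_lhs => rw [← hxn n]
    rw [hxn n]
    conv_lhs => rw [← hxn n]
    exact inv_apply_self' _ _
  have hb : ∀ n : ℕ, ‖γ x - x + n • t‖ ≤ ‖γ x - x‖ := by
    intro n
    have h1 : (α ^ n) (γ x) = γ x + n • t := by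
      have := congrArg (fun g : E ≃ᵃⁱ[ℝ] E => g x) (hpow n)
      simp only [mul_apply'] at this
      rw [hxn' n, htrn] at this
      exact this
    have h2 : dist ((α ^ n) (γ x)) x = dist (γ x) x := by
      calc dist ((α ^ n) (γ x)) x = dist ((α ^ n) (γ x)) ((α ^ n) x) := by rw [hxn n]
        _ = dist (γ x) x := (α ^ n).dist_map _ _
    rw [h1, dist_eq_norm, dist_eq_norm] at h2
    rw [← h2]
    apply le_of_eq
    congr 1
    abel
  have ht0 : t = 0 := by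
    by_contra hne
    have hpos : 0 < ‖t‖ := norm_pos_iff.mpr hne
    obtain ⟨n, hn⟩ := exists_nat_gt (2 * ‖γ x - x‖ / ‖t‖)
    rw [div_lt_iff₀ hpos] at hn
    have h1 := hb n
    have h2 : ‖n • t‖ = n * ‖t‖ := by
      rw [← Nat.cast_smul_eq_nsmul ℝ, norm_smul]; simp
    have h3 : ‖n • t‖ ≤ ‖γ x - x + n • t‖ + ‖γ x - x‖ := by
      have := norm_sub_le (γ x - x + n • t) (γ x - x)
      simpa using this
    linarith
  ext z
  rw [htr z, ht0]
  simp

end Pool.Agent.Helper17
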