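import Pool.Agent.Lib.Helper17.DeloneCommute

/-!
A Delone set with congruent clusters of radius `C √d R` has no small local symmetries.
-/

set_option autoImplicit false

open Metric Module

namespace Pool.Agent.Helper17

variable {E : Type*} [NormedAddCommGroup E] [InnerProductSpace ℝ E]

/-- A commuting family of symmetric operators has an orthonormal basis of joint eigenvectors. -/
theorem exists_joint_eigenbasis [FiniteDimensional ℝ E] {ι : Type*} (T : ι → E →ₗ[ℝ] E)
    (hT : ∀ i, (T i).IsSymmetric) (hC : Pairwise (Function.onFun Commute T)) :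
    ∃ b : OrthonormalBasis (Fin (finrank ℝ E)) ℝ E, ∀ i j, ∃ c : ℝ, T i (b j) = c • b j := by
  classical
  let V : (ι → ℝ) → Submodule ℝ E := fun α => ⨅ j, End.eigenspace (T j) (α j)
  have hint : DirectSum.IsInternal V :=
    LinearMap.IsSymmetric.directSum_isInternal_of_pairwise_commute hT hC
  have horth := LinearMap.IsSymmetric.orthogonalFamily_iInf_eigenspaces hT
  have hfin : {α | V α ≠ ⊥}.Finite :=
    WellFoundedGT.finite_ne_bot_of_iSupIndep hint.submodule_iSupIndep
  have : Fintype {α // V α ≠ ⊥} := hfin.fintype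
  have hint' : DirectSum.IsInternal (fun i : {α // V α ≠ ⊥} => V i) :=
    DirectSum.isInternal_ne_bot_iff.mpr hint
  have horth' : OrthogonalFamily ℝ (fun i : {α // V α ≠ ⊥} => V i)
      fun i => (V i).subtypeₗᵢ := horth.comp Subtype.val_injective
  refine ⟨hint'.subordinateOrthonormalBasis rfl horth', fun i j => ?_⟩
  have hmem := hint'.subordinateOrthonormalBasis_subordinate rfl j horth'
  set k := hint'.subordinateOrthonormalBasisIndex rfl j horth'
  refine ⟨(k : ι → ℝ) i, ?_⟩
  have h1 := (Submodule.mem_iInf _).mp hmem i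
  exact End.mem_eigenspace_iff.mp h1

/-- The symmetric operator `2 - A - A⁻¹`. -/
noncomputable def symOp (A : E ≃ₗᵢ[ℝ] E) : E →ₗ[ℝ] E :=
  (2 : ℝ) • LinearMap.id - A.toLinearEquiv.toLinearMap - A⁻¹.toLinearEquiv.toLinearMap

theorem symOp_apply (A : E ≃ₗᵢ[ℝ] E) (v : E) : symOp A v = (2 : ℝ) • v - A v - A⁻¹ v := rfl

theorem inner_inv_left (A : E ≃ₗᵢ[ℝ] E) (v w : E) : inner ℝ (A⁻¹ v) w = inner ℝ v (A w) := by
  rw [← LinearIsometryEquiv.inner_map_map A, lapply_inv_self']

theorem symOp_isSymmetric (A : E ≃ₗᵢ[ℝ] E) : (symOp A).IsSymmetric := by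
  intro v w
  rw [symOp_apply, symOp_apply]
  simp only [inner_sub_left, inner_sub_right, inner_smul_left, inner_smul_right]
  rw [inner_inv_left]
  have : inner ℝ v (A⁻¹ w) = inner ℝ (A v) w := by
    rw [real_inner_comm, inner_inv_left, real_inner_comm]
  rw [this]
  simp
  ring

theorem symOp_commute {A B : E ≃ₗᵢ[ℝ] E} (h : A * B = B * A) : Commute (symOp A) (symOp B) := by
  have hAB : ∀ v, A (B v) = B (A v) := fun v => by
    have := congrArg (fun g : E ≃ₗᵢ[ℝ] E => g v) h
    simpa [lmul_apply'] using this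
  have hC : Commute A B := h
  have hA'B : ∀ v, A⁻¹ (B v) = B (A⁻¹ v) := fun v => by
    have := congrArg (fun g : E ≃ₗᵢ[ℝ] E => g v) hC.inv_left.eq
    simpa only [lmul_apply'] using this
  have hAB' : ∀ v, A (B⁻¹ v) = B⁻¹ (A v) := fun v => by
    have := congrArg (fun g : E ≃ₗᵢ[ℝ] E => g v) hC.inv_right.eq
    simpa only [lmul_apply'] using this
  have hA'B' : ∀ v, A⁻¹ (B⁻¹ v) = B⁻¹ (A⁻¹ v) := fun v => by
    have := congrArg (fun g : E ≃ₗᵢ[ℝ] E => g v) hC.inv_inv.eq
    simpa only [lmul_apply'] using this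
  ext v
  simp only [Module.End.mul_apply, symOp_apply, map_sub, map_smul, hAB, hA'B, hAB', hA'B',
    smul_sub]
  abel

/-- If `symOp A = 0` then `A = 1`. -/
theorem eq_one_of_symOp_eq_zero {A : E ≃ₗᵢ[ℝ] E} (h : symOp A = 0) : A = 1 := by
  ext v
  have h1 : inner ℝ (symOp A v) v = (0 : ℝ) := by rw [h]; simp
  rw [symOp_apply] at h1
  simp only [inner_sub_left, inner_smul_left] at h1
  rw [inner_inv_left, real_inner_comm (A v) v] at h1
  have h2 : ‖A v - v‖ ^ 2 = 0 := by
    rw [norm_sub_sq_real, LinearIsometryEquiv.norm_map, ← real_inner_self_eq_norm_sq]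
    have h3 : (starRingEnd ℝ) 2 = 2 := rfl
    rw [h3] at h1
    have h4 : inner ℝ v (A v) = inner ℝ (A v) v := real_inner_comm _ _
    linarith
  have h3 : ‖A v - v‖ = 0 := by simpa using h2
  rw [norm_eq_zero, sub_eq_zero] at h3
  simpa using h3

/-- If the rotation `α` about `y` commutes with the rotation `β` about `z` then
`symOp (lin α) (symOp (lin β) (y - z)) = 0`. -/
theorem symOp_symOp_sub {α β : E ≃ᵃⁱ[ℝ] E} {y z : E} (hα : α y = y) (hβ : β z = z)
    (h : α * β = β * α) : symOp (lin β) (symOp (lin α) (z - y)) = 0 := by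
  have hl : lin α * lin β = lin β * lin α := by rw [← lin_mul, ← lin_mul, h]
  have hlA : ∀ v w, lin α (v - w) = α v - α w := lin_sub α
  have hlB : ∀ v w, lin β (v - w) = β v - β w := lin_sub β
  generalize lin α = A at hl hlA ⊢
  generalize lin β = B at hl hlB ⊢
  have hC : Commute A B := hl
  obtain ⟨u, hu⟩ : ∃ u, u = z - y := ⟨_, rfl⟩
  obtain ⟨w, hw⟩ : ∃ w, w = A u - u := ⟨_, rfl⟩
  -- `B w = w`
  have h1 : α (β z) = β (α z) := by
    have := congrArg (fun g : E ≃ᵃⁱ[ℝ] E => g z) h
    simpa only [mul_apply'] using this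
  rw [hβ] at h1
  have h2 : α z - z = w := by
    rw [hw, hu, hlA, hα]; abel
  have h3 : B w = w := by
    rw [← h2, hlB, hβ, ← h1]
  have h3' : B⁻¹ w = w := by
    conv_lhs => rw [← h3]
    exact linv_apply_self' B w
  have h4 : symOp A u = A⁻¹ w - w := by
    rw [symOp_apply, hw, map_sub, linv_apply_self', two_smul]
    abel
  have h5 : B (A⁻¹ w) = A⁻¹ w := by
    have := congrArg (fun g : E ≃ₗᵢ[ℝ] E => g w) hC.inv_left.eq
    simp only [lmul_apply'] at this
    rw [← this, h3]
  have h6 : B⁻¹ (A⁻¹ w) = A⁻¹ w := by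
    conv_lhs => rw [← h5]
    exact linv_apply_self' B _
  rw [← hu, h4, symOp_apply, map_sub, map_sub, h3, h3', h5, h6, two_smul]
  abel

/-- **No small symmetries.** If all clusters of radius `ρ ≥ 4 (√n t + R) + 3 R`, `t > R`, of the
Delone set `X` are congruent, then no nontrivial symmetry of such a cluster (fixing its centre) is
within distance `< 1/2` of the identity. -/
theorem eq_one_of_near [FiniteDimensional ℝ E] {X : Set E} {R r t ρ : ℝ} (hR : 0 < R) (hr : 0 < r)
    (hsep : ∀ x ∈ X, ∀ y ∈ X, x ≠ y → r ≤ dist x y)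
    (hX : ∀ z : E, ∃ x ∈ X, dist z x ≤ R)
    (ht : R < t) (hρ : 4 * (Real.sqrt (finrank ℝ E) * t + R) + 3 * R ≤ ρ)
    {x : E}
    (hiso : ∀ y ∈ X, ∃ β : E ≃ᵃⁱ[ℝ] E, β x = y ∧ Loc X β x ρ)
    {α : E ≃ᵃⁱ[ℝ] E} {a : ℝ} (ha : a < 1 / 2)
    (hαx : α x = x) (hαl : Loc X α x ρ) (hαn : Near (lin α) a) : α = 1 := by
  classical
  by_contra hα1
  set L := Real.sqrt (finrank ℝ E) * t + R with hL
  -- we may assume `0 ≤ a`
  obtain ⟨a', ha0, ha, hαn⟩ : ∃ a', 0 ≤ a' ∧ a' < 1 / 2 ∧ Near (lin α) a' :=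
    ⟨max a 0, le_max_right _ _, max_lt ha (by norm_num), hαn.mono (le_max_left _ _)⟩
  choose! β hβx hβl using hiso
  let S := {y : E // y ∈ X ∧ dist y x ≤ L}
  let γ : S → (E ≃ᵃⁱ[ℝ] E) := fun y => β y * α * (β y)⁻¹
  have hinvβ : ∀ y ∈ X, (β y)⁻¹ y = x := fun y hy => by
    have := inv_apply_self' (β y) x
    rwa [hβx y hy] at this
  have hγfix : ∀ y : S, γ y y = y := fun y => by
    change β y (α ((β y)⁻¹ y)) = y
    rw [hinvβ y y.2.1, hαx, hβx y y.2.1]
  have hγloc : ∀ y : S, Loc X (γ y) y ρ := fun y => by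
    have h1 : Loc X (β y)⁻¹ y ρ := by
      have := (hβl y y.2.1).inv
      rwa [hβx y y.2.1] at this
    refine h1.mul (g := β y * α) ?_
    rw [hinvβ y y.2.1]
    apply hαl.mul
    rw [hαx]
    exact hβl y y.2.1
  have hγnear : ∀ y : S, Near (lin (γ y)) a' := fun y => by
    have : lin (γ y) = lin (β y) * lin α * (lin (β y))⁻¹ := by
      simp only [γ]
      rw [lin_mul, lin_mul, lin_inv]
    rw [this]
    exact hαn.conj _
  have hcomm : ∀ y z : S, γ y * γ z = γ z * γ y := fun y z => by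
    refine commute_of_near hR hr hsep hX y.2.1 ?_ ha0 ha (hγfix y) (hγloc y) (hγnear y)
      (hγfix z) (hγloc z) (hγnear z)
    have h1 := dist_triangle (y : E) x z
    have h2 := y.2.2
    have h3 := z.2.2
    rw [dist_comm x (z : E)] at h1
    linarith
  have hγne : ∀ y : S, symOp (lin (γ y)) ≠ 0 := fun y h => by
    apply hα1
    have h1 := eq_one_of_symOp_eq_zero h
    have h2 : lin α = 1 := by
      have : lin (γ y) = lin (β y) * lin α * (lin (β y))⁻¹ := by
        simp only [γ]
        rw [lin_mul, lin_mul, lin_inv]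
      rw [this] at h1
      rwa [conj_eq_one_iff] at h1
    ext z
    have h3 := lin_sub α z x
    rw [h2, hαx] at h3
    simp only [LinearIsometryEquiv.coe_one, id_eq] at h3
    have h4 : α z = z := by
      have h5 := congrArg (· + x) h3
      simpa using h5.symm
    simpa using h4
  obtain ⟨b, hb⟩ := exists_joint_eigenbasis (fun y : S => symOp (lin (γ y)))
    (fun y => symOp_isSymmetric _) (fun y z _ => symOp_commute (by
      rw [← lin_mul, ← lin_mul, hcomm]))
  choose c hc using hb
  -- two centres with nonzero eigenvalue on `b j` have the same `j`-th coordinate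
  have hcoord : ∀ (j) (y z : S), c y j ≠ 0 → c z j ≠ 0 →
      inner ℝ (b j) (y : E) = inner ℝ (b j) (z : E) := by
    intro j y z hy hz
    have h1 := symOp_symOp_sub (hγfix y) (hγfix z) (hcomm y z)
    have h2 : inner ℝ (b j) (symOp (lin (γ z)) (symOp (lin (γ y)) ((z : E) - y))) = (0 : ℝ) := by
      rw [h1]; simp
    rw [← symOp_isSymmetric, hc z j, inner_smul_left, ← symOp_isSymmetric, hc y j,
      inner_smul_left] at h2
    simp only [conj_trivial] at h2
    have h3 : inner ℝ (b j) ((z : E) - y) = (0 : ℝ) := by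
      rcases mul_eq_zero.mp h2 with h | h
      · exact absurd h hz
      · rcases mul_eq_zero.mp h with h | h
        · exact absurd h hy
        · exact h
    rw [inner_sub_right] at h3
    linarith
  -- the forbidden values
  have hp : ∀ j, ∃ p : ℝ, ∀ y : S, c y j ≠ 0 → inner ℝ (b j) (y : E) = p := by
    intro j
    by_cases h : ∃ y : S, c y j ≠ 0
    · obtain ⟨y, hy⟩ := h
      exact ⟨inner ℝ (b j) (y : E), fun z hz => hcoord j z y hz hy⟩
    · push Not at h
      exact ⟨0, fun z hz => absurd (h z) hz⟩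
  choose p hp using hp
  let s : Fin (finrank ℝ E) → ℝ := fun j => if 0 ≤ inner ℝ (b j) x - p j then t else -t
  have hs2 : ∀ j, s j ^ 2 = t ^ 2 := fun j => by
    simp only [s]; split_ifs <;> ring
  let w : E := ∑ j, s j • b j
  have hwb : ∀ j, inner ℝ (b j) w = s j := fun j => by
    simp only [w]
    rw [inner_sum]
    simp only [inner_smul_right]
    rw [Finset.sum_eq_single j]
    · rw [real_inner_self_eq_norm_sq, b.orthonormal.1 j]; ring
    · intro i _ hij
      rw [b.orthonormal.2 (Ne.symm hij)]; ring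
    · intro h; exact absurd (Finset.mem_univ j) h
  have ht0 : 0 < t := hR.trans ht
  have hwn : ‖w‖ = Real.sqrt (finrank ℝ E) * t := by
    have h1 : ‖w‖ ^ 2 = finrank ℝ E * t ^ 2 := by
      rw [← b.sum_sq_norm_inner_right w]
      simp only [hwb, Real.norm_eq_abs, sq_abs, hs2]
      simp
    have h2 : ‖w‖ = Real.sqrt (finrank ℝ E * t ^ 2) := by
      rw [← h1, Real.sqrt_sq (norm_nonneg _)]
    rw [h2, Real.sqrt_mul (by positivity), Real.sqrt_sq ht0.le]
  obtain ⟨y, hy, hyd⟩ := hX (x + w)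
  have hyS : dist y x ≤ L := by
    have h1 := dist_triangle y (x + w) x
    have h2 : dist (x + w) x = ‖w‖ := by rw [dist_eq_norm]; congr 1; abel
    rw [dist_comm y (x + w)] at h1
    rw [h2, hwn] at h1
    rw [hL]; linarith
  let yS : S := ⟨y, hy, hyS⟩
  have hex : ∃ j, c yS j ≠ 0 := by
    by_contra h
    push Not at h
    apply hγne yS
    apply b.toBasis.ext
    intro j
    rw [OrthonormalBasis.coe_toBasis, hc yS j, h j]
    simp
  obtain ⟨j, hj⟩ := hex
  have h1 : inner ℝ (b j) y = p j := hp j yS hj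
  have h2 : |inner ℝ (b j) (x + w - y)| ≤ R := by
    refine (abs_real_inner_le_norm _ _).trans ?_
    rw [b.orthonormal.1 j, one_mul, ← dist_eq_norm]
    exact hyd
  have h3 : inner ℝ (b j) (x + w - y) = inner ℝ (b j) x - p j + s j := by
    rw [inner_sub_right, inner_add_right, hwb, h1]; ring
  rw [h3] at h2
  simp only [s] at h2
  split_ifs at h2 with h4
  · rw [abs_of_nonneg (by linarith)] at h2; linarith
  · rw [abs_of_neg (by linarith)] at h2; linarith

end Pool.Agent.Helper17
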