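import Pool.Agent.Lib.Helper17.DeloneSmall

/-!
The tower of cluster groups, the packing bound and the local criterion for regular systems.
-/

set_option autoImplicit false

open Metric Module

namespace Pool.Agent.Helper17

variable {E : Type*} [NormedAddCommGroup E] [InnerProductSpace ℝ E]

/-- The group of symmetries of the cluster of radius `ρ` about `x` that fix `x`. -/
def clusterGroup (X : Set E) (x : E) (ρ : ℝ) : Subgroup (E ≃ᵃⁱ[ℝ] E) where
  carrier := {g | g x = x ∧ Loc X g x ρ}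
  one_mem' := ⟨rfl, fun z _ => Iff.rfl⟩
  mul_mem' := by
    rintro g h ⟨hg, hg'⟩ ⟨hh, hh'⟩
    refine ⟨by rw [mul_apply', hh, hg], hh'.mul ?_⟩
    rw [hh]; exact hg'
  inv_mem' := by
    rintro g ⟨hg, hg'⟩
    refine ⟨?_, ?_⟩
    · have := inv_apply_self' g x
      rwa [hg] at this
    · have := hg'.inv
      rwa [hg] at this

theorem mem_clusterGroup {X : Set E} {x : E} {ρ : ℝ} {g : E ≃ᵃⁱ[ℝ] E} :
    g ∈ clusterGroup X x ρ ↔ g x = x ∧ Loc X g x ρ := Iff.rfl

theorem clusterGroup_anti {X : Set E} {x : E} {ρ ρ' : ℝ} (h : ρ ≤ ρ') :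
    clusterGroup X x ρ' ≤ clusterGroup X x ρ := fun _ hg => ⟨hg.1, hg.2.mono h⟩

/-- Packing bound: a group of isometries without nontrivial elements with linear part within `1/2`
of the identity has at most `5 ^ (n ^ 2)` elements. -/
theorem card_finset_le [FiniteDimensional ℝ E] (G : Subgroup (E ≃ᵃⁱ[ℝ] E))
    (hG : ∀ g ∈ G, ∀ a : ℝ, a < 1 / 2 → Near (lin g) a → g = 1)
    (s : Finset (E ≃ᵃⁱ[ℝ] E)) (hs : ∀ g ∈ s, g ∈ G) :
    s.card ≤ 5 ^ (finrank ℝ E ^ 2) := by
  classical
  let f : (E ≃ᵃⁱ[ℝ] E) → (E →L[ℝ] E) := fun g =>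
    (2 : ℝ) • ((lin g).toContinuousLinearEquiv : E →L[ℝ] E)
  have hfapp : ∀ g v, f g v = (2 : ℝ) • lin g v := fun g v => rfl
  have hsepf : ∀ g ∈ s, ∀ h ∈ s, g ≠ h → 1 ≤ ‖f g - f h‖ := by
    intro g hg h hh hne
    by_contra hlt
    push Not at hlt
    apply hne
    have h1 : h⁻¹ * g = 1 := by
      apply hG _ (G.mul_mem (G.inv_mem (hs h hh)) (hs g hg)) (‖f g - f h‖ / 2) (by linarith)
      intro v
      have h2 : lin (h⁻¹ * g) v - v = (lin h)⁻¹ (lin g v - lin h v) := by
        rw [lin_mul, lin_inv, lmul_apply', map_sub, linv_apply_self']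
      rw [h2, LinearIsometryEquiv.norm_map]
      have h3 := (f g - f h).le_opNorm v
      have h4 : (f g - f h) v = (2 : ℝ) • (lin g v - lin h v) := by
        rw [sub_apply, hfapp, hfapp, smul_sub]
      rw [h4, norm_smul] at h3
      simp only [Real.norm_ofNat] at h3
      linarith
    exact (inv_mul_eq_one.mp h1).symm
  have hinj : Set.InjOn f s := by
    intro g hg h hh hgh
    by_contra hne
    have := hsepf g hg h hh hne
    rw [hgh, sub_self, norm_zero] at this
    linarith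
  have hcard : (s.image f).card = s.card := Finset.card_image_of_injOn hinj
  have hfr : finrank ℝ (E →L[ℝ] E) = finrank ℝ E ^ 2 := by
    have h1 : finrank ℝ (E →L[ℝ] E) = finrank ℝ (E →ₗ[ℝ] E) :=
      (LinearMap.toContinuousLinearMap (𝕜 := ℝ) (E := E) (F' := E)).finrank_eq.symm
    rw [h1, Module.finrank_linearMap, sq]
  rw [← hcard, ← hfr]
  apply Besicovitch.card_le_of_separated
  · intro c hc
    obtain ⟨g, _, rfl⟩ := Finset.mem_image.mp hc
    apply ContinuousLinearMap.opNorm_le_bound _ (by norm_num)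
    intro v
    rw [hfapp, norm_smul, LinearIsometryEquiv.norm_map]
    simp
  · intro c hc d hd hcd
    obtain ⟨g, hg, rfl⟩ := Finset.mem_image.mp hc
    obtain ⟨h, hh, rfl⟩ := Finset.mem_image.mp hd
    exact hsepf g hg h hh (fun hgh => hcd (by rw [hgh]))

/-- In a finite group of order `N` a decreasing chain of subgroups `G 0 ≥ G 1 ≥ ...` has a
repetition `G i = G (i + 1)` with `i < m`, as soon as `N < 2 ^ m`. -/
theorem exists_stable {Γ : Type*} [Group Γ] (G : ℕ → Subgroup Γ) (hanti : ∀ i, G (i + 1) ≤ G i)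
    (m N : ℕ) (hfin : Finite (G 0)) (hN : Nat.card (G 0) ≤ N) (hm : N < 2 ^ m) :
    ∃ i < m, G i = G (i + 1) := by
  by_contra h
  push Not at h
  have hfini : ∀ i, Finite (G i) := by
    intro i
    induction i with
    | zero => exact hfin
    | succ i ih => exact Finite.Set.subset (G i : Set Γ) (hanti i)
  have key : ∀ i ≤ m, 2 ^ i * Nat.card (G i) ≤ Nat.card (G 0) := by
    intro i
    induction i with
    | zero => intro _; simp
    | succ i ih =>
      intro hi
      have h1 := ih (by omega)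
      have h2 : G (i + 1) ≠ G i := (h i (by omega)).symm
      have h3 : 2 * Nat.card (G (i + 1)) ≤ Nat.card (G i) := by
        have := hfini i
        have := hfini (i + 1)
        have h4 : Nat.card (G (i + 1)) ∣ Nat.card (G i) := Subgroup.card_dvd_of_le (hanti i)
        obtain ⟨k, hk⟩ := h4
        have h5 : k ≠ 0 := by
          rintro rfl
          have : 0 < Nat.card (G i) := Nat.card_pos
          omega
        have h6 : k ≠ 1 := by
          rintro rfl
          rw [mul_one] at hk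
          exact h2 (Subgroup.eq_of_le_of_card_ge (hanti i) hk.le)
        have h7 : 2 ≤ k := by omega
        rw [hk]
        nlinarith [Nat.zero_le (Nat.card (G (i + 1)))]
      calc 2 ^ (i + 1) * Nat.card (G (i + 1)) = 2 ^ i * (2 * Nat.card (G (i + 1))) := by ring
        _ ≤ 2 ^ i * Nat.card (G i) := Nat.mul_le_mul_left _ h3
        _ ≤ _ := h1
  have h1 := key m le_rfl
  have := hfini m
  have h2 : 0 < Nat.card (G m) := Nat.card_pos
  have h3 : 2 ^ m ≤ 2 ^ m * Nat.card (G m) := Nat.le_mul_of_pos_right _ h2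
  omega

/-- **Local criterion** (Delone, Dolbilin, Shtogrin, Galiulin). -/
theorem local_criterion {X : Set E} {R s ρ : ℝ} (hR : 0 < R) (hs : 2 * R < s) (hρ0 : 0 ≤ ρ)
    (hX : ∀ z : E, ∃ x ∈ X, dist z x ≤ R)
    (hiso : ∀ x ∈ X, ∀ y ∈ X, ∃ β : E ≃ᵃⁱ[ℝ] E, β x = y ∧ Loc X β x (ρ + s))
    {x₀ : E} (hx₀ : x₀ ∈ X) (hstab : clusterGroup X x₀ ρ = clusterGroup X x₀ (ρ + s))
    {x y : E} (hx : x ∈ X) (hy : y ∈ X) :
    ∃ g : E ≃ᵃⁱ[ℝ] E, g x = y ∧ ∀ z, z ∈ X ↔ g z ∈ X := by
  obtain ⟨g, hgx, hgl⟩ := hiso x hx y hy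
  refine ⟨g, hgx, ?_⟩
  -- stabilisation at every point
  have hstab' : ∀ w ∈ X, ∀ k : E ≃ᵃⁱ[ℝ] E, k w = w → Loc X k w ρ → Loc X k w (ρ + s) := by
    intro w hw k hkw hk
    obtain ⟨β, hβ, hβl⟩ := hiso x₀ hx₀ w hw
    have hβi : Loc X β⁻¹ w (ρ + s) := by
      have := hβl.inv
      rwa [hβ] at this
    have hβw : β⁻¹ w = x₀ := by
      have := inv_apply_self' β x₀
      rwa [hβ] at this
    have h1 : β⁻¹ * k * β ∈ clusterGroup X x₀ ρ := by
      refine ⟨?_, ?_⟩
      · rw [mul_apply', mul_apply', hβ, hkw, hβw]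
      · refine (hβl.mono (by linarith)).mul (g := β⁻¹ * k) ?_
        rw [hβ]
        refine hk.mul ?_
        rw [hkw]
        exact hβi.mono (by linarith)
    rw [hstab] at h1
    have h2 : k = β * (β⁻¹ * k * β) * β⁻¹ := by group
    rw [h2]
    refine hβi.mul (g := β * (β⁻¹ * k * β)) ?_
    rw [hβw]
    refine h1.2.mul ?_
    rw [h1.1]
    exact hβl
  have step : ∀ z w, w ∈ X → dist w z ≤ s → Loc X g z (ρ + s) → Loc X g w (ρ + s) := by
    intro z w hw hd hg
    have hgw : g w ∈ X := (hg w (by linarith)).mp hw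
    have hg' : Loc X g w ρ := hg.shift (by linarith)
    obtain ⟨h, hhw, hhl⟩ := hiso w hw (g w) hgw
    have hhi : Loc X h⁻¹ (g w) (ρ + s) := by
      have := hhl.inv
      rwa [hhw] at this
    have h1 : Loc X (h⁻¹ * g) w ρ := hg'.mul (hhi.mono (by linarith))
    have h2 : (h⁻¹ * g) w = w := by
      rw [mul_apply']
      have := inv_apply_self' h w
      rwa [hhw] at this
    have h3 := hstab' w hw _ h2 h1
    have h4 : g = h * (h⁻¹ * g) := by group
    rw [h4]
    refine h3.mul ?_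
    rw [h2]
    exact hhl
  set ε := s - 2 * R with hε
  have hε0 : 0 < ε := by linarith
  have hall : ∀ n : ℕ, ∀ w ∈ X, dist w x ≤ s + n * ε → Loc X g w (ρ + s) := by
    intro n
    induction n with
    | zero =>
      intro w hw hd
      exact step x w hw (by simpa using hd) hgl
    | succ n ih =>
      intro w hw hd
      by_cases hds : dist w x ≤ s
      · exact step x w hw hds hgl
      push Not at hds
      have hD0 : 0 < dist w x := by linarith
      set D := dist w x with hD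
      set u : E := ((R + ε) / D) • (x - w) with hu
      have hun : ‖u‖ = R + ε := by
        rw [hu, norm_smul, Real.norm_of_nonneg (by positivity), ← dist_eq_norm, dist_comm x w,
          ← hD]
        field_simp
      obtain ⟨w₁, hw₁, hw₁d⟩ := hX (w + u)
      have h1 : dist w w₁ ≤ s := by
        have h2 := dist_triangle w (w + u) w₁
        have h3 : dist w (w + u) = ‖u‖ := by
          rw [dist_comm, dist_eq_norm]; congr 1; abel
        linarith
      have h4 : dist (w + u) x = D - (R + ε) := by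
        have h5 : w + u - x = (1 - (R + ε) / D) • (w - x) := by
          rw [hu, sub_smul, one_smul, smul_sub, smul_sub]; abel
        rw [dist_eq_norm, h5, norm_smul, ← dist_eq_norm w x, ← hD, Real.norm_of_nonneg]
        · field_simp
        · rw [sub_nonneg, div_le_one hD0]; linarith
      have h6 : dist w₁ x ≤ s + n * ε := by
        have h7 := dist_triangle w₁ (w + u) x
        rw [dist_comm w₁ (w + u)] at h7
        push_cast at hd
        linarith
      exact step w₁ w hw h1 (ih w₁ hw₁ h6)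
  intro z
  obtain ⟨w, hw, hwd⟩ := hX z
  obtain ⟨n, hn⟩ := exists_nat_gt ((dist w x - s) / ε)
  rw [div_lt_iff₀ hε0] at hn
  exact hall n w hw (by linarith) z (by linarith)

/-- Regularity from a bound on the order of the cluster group. -/
theorem regular_of_card_lt [FiniteDimensional ℝ E] {X : Set E} {R s ρ₀ ρ : ℝ} (hR : 0 < R)
    (hs : 2 * R < s) (hρ₀ : 0 ≤ ρ₀) (m N : ℕ)
    (hX : ∀ z : E, ∃ x ∈ X, dist z x ≤ R)
    (hρ : ρ₀ + m * s ≤ ρ)
    (hiso : ∀ x ∈ X, ∀ y ∈ X, ∃ β : E ≃ᵃⁱ[ℝ] E, β x = y ∧ Loc X β x ρ)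
    {x₀ : E} (hx₀ : x₀ ∈ X) (hfin : Finite (clusterGroup X x₀ ρ₀))
    (hN : Nat.card (clusterGroup X x₀ ρ₀) ≤ N) (hm : N < 2 ^ m)
    {x y : E} (hx : x ∈ X) (hy : y ∈ X) :
    ∃ g : E ≃ᵃⁱ[ℝ] E, g x = y ∧ ∀ z, z ∈ X ↔ g z ∈ X := by
  have hs0 : 0 < s := by linarith
  obtain ⟨i, him, hi⟩ := exists_stable (fun i : ℕ => clusterGroup X x₀ (ρ₀ + i * s))
    (fun i => clusterGroup_anti (by push_cast; linarith)) m N (by simpa using hfin)
    (by simpa using hN) hm
  have h1 : ρ₀ + i * s + s = ρ₀ + ((i + 1 : ℕ) : ℝ) * s := by push_cast; ring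
  have h2 : ρ₀ + i * s + s ≤ ρ := by
    rw [h1]
    have : (((i + 1 : ℕ) : ℝ)) * s ≤ m * s := by
      apply mul_le_mul_of_nonneg_right _ hs0.le
      exact_mod_cast him
    linarith
  refine local_criterion hR hs (ρ := ρ₀ + i * s) (by positivity) hX ?_ hx₀ ?_ hx hy
  · intro x hx y hy
    obtain ⟨β, hβ, hβl⟩ := hiso x hx y hy
    exact ⟨β, hβ, hβl.mono h2⟩
  · rw [h1]; exact hi

end Pool.Agent.Helper17
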