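import Pool.Agent.Lib.Helper17.Blichfeldt
import Pool.Agent.Lib.Helper17.ClusterRep

/-!
# The order of the cluster group in terms of the rational rank of the cluster
-/

set_option autoImplicit false

open Metric Module

namespace Pool.Agent.Helper17

open Pool.Agent.Results.MP_e6a378_co.AbelianIndexBound (toAff toAff_apply toAff_injective
  loc_of_image map_clusterGroup)

theorem finite_inter_closedBall {d : ℕ} {r : ℝ} (hr : 0 < r) {X : Set (EuclideanSpace ℝ (Fin d))}
    (hsep : ∀ x ∈ X, ∀ y ∈ X, x ≠ y → r ≤ dist x y) (x : EuclideanSpace ℝ (Fin d)) (ρ : ℝ) :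
    (X ∩ closedBall x ρ).Finite := by
  obtain ⟨t, -, htf, hcov⟩ := (isCompact_closedBall x ρ).finite_cover_balls (e := r / 2)
    (by positivity)
  have hch : ∀ y ∈ X ∩ closedBall x ρ, ∃ c ∈ t, dist y c < r / 2 := by
    intro y hy
    have h1 := hcov hy.2
    rw [Set.mem_iUnion₂] at h1
    obtain ⟨c, hc, hyc⟩ := h1
    exact ⟨c, hc, hyc⟩
  choose! c hct hcd using hch
  apply Set.Finite.of_injOn (f := c) (t := t) hct _ htf
  intro y hy z hz hyz
  by_contra hne
  have h1 := hsep y hy.1 z hz.1 hne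
  have h2 := hcd y hy
  have h3 := hcd z hz
  rw [← hyz] at h3
  have h4 := dist_triangle y (c y) z
  rw [dist_comm (c y) z] at h4
  linarith

/-- A `ℤ`-submodule preserved by the linear parts of a group of isometries. -/
noncomputable def restrictHom {d : ℕ} (S : Subgroup (EuclideanSpace ℝ (Fin d) ≃ᵢ EuclideanSpace ℝ (Fin d)))
    (M : Submodule ℤ (EuclideanSpace ℝ (Fin d)))
    (h : ∀ g ∈ S, ∀ w ∈ M, linEnd g w ∈ M) : S →* Module.End ℤ M where
  toFun g :=
    { toFun := fun w => ⟨linEnd g.1 w.1, h g.1 g.2 w.1 w.2⟩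
      map_add' := fun a b => Subtype.ext (map_add _ _ _)
      map_smul' := fun n a => Subtype.ext (map_zsmul _ _ _) }
  map_one' := by
    ext1 w
    apply Subtype.ext
    change linEnd (1 : EuclideanSpace ℝ (Fin d) ≃ᵢ EuclideanSpace ℝ (Fin d)) w.1 = w.1
    rw [map_one]
    rfl
  map_mul' g h := by
    ext1 w
    apply Subtype.ext
    change linEnd (g.1 * h.1) w.1 = linEnd g.1 (linEnd h.1 w.1)
    rw [map_mul]
    rfl

theorem restrictHom_apply {d : ℕ}
    (S : Subgroup (EuclideanSpace ℝ (Fin d) ≃ᵢ EuclideanSpace ℝ (Fin d)))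
    (M : Submodule ℤ (EuclideanSpace ℝ (Fin d)))
    (h : ∀ g ∈ S, ∀ w ∈ M, linEnd g w ∈ M) (g : S) (w : M) :
    ((restrictHom S M h g w : M) : EuclideanSpace ℝ (Fin d)) = linEnd g.1 w.1 := rfl

/-- A finite group acting faithfully on a free `ℤ`-module of rank `n` has at most `(2 n)!`
elements. -/
theorem card_le_of_int {S : Type*} [Group S] [Finite S] {M : Type*} [AddCommGroup M]
    [Module.Finite ℤ M] [Module.Free ℤ M] (φ : S →* Module.End ℤ M)
    (hφinj : ∀ g : S, φ g = 1 → g = 1) : Nat.card S ≤ (2 * finrank ℤ M).factorial := by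
  classical
  let b := Module.finBasis ℤ M
  set n := finrank ℤ M with hn
  let ψ : Representation ℂ S (Fin n → ℂ) :=
    ((Matrix.toLinAlgEquiv' (R := ℂ) (n := Fin n) : Matrix (Fin n) (Fin n) ℂ →*
        Module.End ℂ (Fin n → ℂ)).comp
      ((Int.castRingHom ℂ).mapMatrix (m := Fin n) : Matrix (Fin n) (Fin n) ℤ →*
        Matrix (Fin n) (Fin n) ℂ)).comp
      ((LinearMap.toMatrixAlgEquiv b :
        Module.End ℤ M →* Matrix (Fin n) (Fin n) ℤ).comp φ)
  have hψinj : ∀ g : S, ψ g = 1 → g = 1 := by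
    intro g hg
    apply hφinj
    have h1 : (Matrix.toLinAlgEquiv' (R := ℂ) (n := Fin n))
        ((Int.castRingHom ℂ).mapMatrix (m := Fin n) (LinearMap.toMatrixAlgEquiv b (φ g))) =
        (Matrix.toLinAlgEquiv' (R := ℂ) (n := Fin n))
        ((Int.castRingHom ℂ).mapMatrix (m := Fin n) (LinearMap.toMatrixAlgEquiv b 1)) := by
      rw [map_one (LinearMap.toMatrixAlgEquiv b), map_one, map_one]
      exact hg
    have h2 := (Matrix.toLinAlgEquiv' (R := ℂ) (n := Fin n)).injective h1
    have h3 : Function.Injective ((Int.castRingHom ℂ).mapMatrix (m := Fin n)) := by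
      intro A B hAB
      ext i j
      have := congrFun (congrFun hAB i) j
      exact (Int.castRingHom ℂ).injective_int this
    exact (LinearMap.toMatrixAlgEquiv b).injective (h3 h2)
  have hψtr : ∀ g : S, LinearMap.trace ℂ (Fin n → ℂ) (ψ g) =
      ((LinearMap.toMatrixAlgEquiv b (φ g)).trace : ℤ) := by
    intro g
    change LinearMap.trace ℂ (Fin n → ℂ) (Matrix.toLin'
      ((LinearMap.toMatrixAlgEquiv b (φ g)).map (Int.castRingHom ℂ))) = _
    rw [Matrix.trace_toLin'_eq]
    simp [Matrix.trace]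
  have hdvd := card_dvd_factorial_of_int ψ _ hψtr hψinj
  rw [Module.finrank_fintype_fun_eq_card, Fintype.card_fin] at hdvd
  exact Nat.le_of_dvd (Nat.factorial_pos _) hdvd

/-- A finitely generated group of vectors inside the rational span of `N` vectors has rank at
most `N`. -/
theorem finrank_le_of_span {d N : ℕ} (M : Submodule ℤ (EuclideanSpace ℝ (Fin d)))
    [Module.Finite ℤ M] (v : Fin N → EuclideanSpace ℝ (Fin d))
    (hspan : ∀ w ∈ M, w ∈ Submodule.span ℚ (Set.range v)) : finrank ℤ M ≤ N := by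
  classical
  have htf : Module.IsTorsionFree ℤ (EuclideanSpace ℝ (Fin d)) :=
    Module.IsTorsionFree.of_smul_eq_zero (fun n a hna => by
      have h1 : (n : ℝ) • a = 0 := by rw [Int.cast_smul_eq_zsmul]; exact hna
      rcases smul_eq_zero.mp h1 with h | h
      · exact Or.inl (by exact_mod_cast h)
      · exact Or.inr h)
  have hfree : Module.Free ℤ M := Module.free_of_finite_type_torsion_free'
  let b := Module.finBasis ℤ M
  have hli : LinearIndependent ℤ (fun i => (b i : EuclideanSpace ℝ (Fin d))) :=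
    b.linearIndependent.map' M.subtype (Submodule.ker_subtype M)
  have hliQ : LinearIndependent ℚ (fun i => (b i : EuclideanSpace ℝ (Fin d))) :=
    (LinearIndependent.iff_fractionRing ℤ ℚ).mp hli
  let b' : Fin (finrank ℤ M) → Submodule.span ℚ (Set.range v) :=
    fun i => ⟨b i, hspan _ (b i).2⟩
  have hliQ' : LinearIndependent ℚ b' := by
    apply LinearIndependent.of_comp (Submodule.subtype _)
    exact hliQ
  have hfd : FiniteDimensional ℚ (Submodule.span ℚ (Set.range v)) :=
    FiniteDimensional.span_of_finite ℚ (Set.finite_range v)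
  have h1 := hliQ'.fintype_card_le_finrank
  rw [Fintype.card_fin] at h1
  exact h1.trans ((finrank_range_le_card v).trans (by simp))

/-- The order of the symmetry group `S` of the cluster of radius `ρ ≥ 3 R` is at most `(2 N)!` if
the differences of the cluster are rational combinations of `N` vectors. -/
theorem card_le_of_rank {d N : ℕ} {R : ℝ} (hR : 0 < R) {r : ℝ} (hr : 0 < r)
    {X : Set (EuclideanSpace ℝ (Fin d))}
    (hsep : ∀ x ∈ X, ∀ y ∈ X, x ≠ y → r ≤ dist x y)
    (hX : ∀ z : EuclideanSpace ℝ (Fin d), ∃ x ∈ X, dist z x ≤ R)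
    {x₀ : EuclideanSpace ℝ (Fin d)} (hx₀ : x₀ ∈ X) {ρ : ℝ} (hρ : 3 * R ≤ ρ)
    (v : Fin N → EuclideanSpace ℝ (Fin d))
    (hv : ∀ y ∈ X, dist y x₀ ≤ ρ → ∃ c : Fin N → ℚ, y - x₀ = ∑ i, (c i : ℝ) • v i)
    (hfin : Finite (Pool.Agent.Results.MP_e6a378_co.AbelianIndexBound.clusterGroup X x₀ ρ)) :
    Nat.card (Pool.Agent.Results.MP_e6a378_co.AbelianIndexBound.clusterGroup X x₀ ρ) ≤
      (2 * N).factorial := by
  classical
  set S := Pool.Agent.Results.MP_e6a378_co.AbelianIndexBound.clusterGroup X x₀ ρ with hS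
  let C : Set (EuclideanSpace ℝ (Fin d)) := (fun y => y - x₀) '' (X ∩ closedBall x₀ ρ)
  have hCfin : C.Finite := (finite_inter_closedBall hr hsep x₀ ρ).image _
  let M : Submodule ℤ (EuclideanSpace ℝ (Fin d)) := Submodule.span ℤ C
  have hMfin : Module.Finite ℤ M := Module.Finite.span_of_finite ℤ hCfin
  have htf : Module.IsTorsionFree ℤ (EuclideanSpace ℝ (Fin d)) :=
    Module.IsTorsionFree.of_smul_eq_zero (fun n a hna => by
      have h1 : (n : ℝ) • a = 0 := by rw [Int.cast_smul_eq_zsmul]; exact hna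
      rcases smul_eq_zero.mp h1 with h | h
      · exact Or.inl (by exact_mod_cast h)
      · exact Or.inr h)
  have hfree : Module.Free ℤ M := Module.free_of_finite_type_torsion_free'
  -- the cluster group acts on `M`
  have hCmap : ∀ g ∈ S, ∀ w ∈ C, linEnd g w ∈ C := by
    rintro g ⟨hgx, hg⟩ _ ⟨y, hy, rfl⟩
    rw [linEnd_apply, hgx]
    refine ⟨g y, ?_, rfl⟩
    rw [← hg]
    exact ⟨y, hy, rfl⟩
  have hMmap : ∀ g ∈ S, ∀ w ∈ M, linEnd g w ∈ M := by
    intro g hg w hw
    induction hw using Submodule.span_induction with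
    | mem w hw => exact Submodule.subset_span (hCmap g hg w hw)
    | zero => rw [map_zero]; exact M.zero_mem
    | add a b _ _ ha hb => rw [map_add]; exact M.add_mem ha hb
    | smul n a _ ha => rw [map_zsmul]; exact M.smul_mem n ha
  have hφinj : ∀ g : S, restrictHom S M hMmap g = 1 → g = 1 := by
    intro g hg
    have h1 : toAff (g : EuclideanSpace ℝ (Fin d) ≃ᵢ EuclideanSpace ℝ (Fin d)) = 1 := by
      apply eq_one_of_fix hR hX hx₀
      intro z hz hzd
      have hzC : z - x₀ ∈ C := ⟨z, ⟨hz, hzd.trans hρ⟩, rfl⟩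
      have h2 := restrictHom_apply S M hMmap g ⟨z - x₀, Submodule.subset_span hzC⟩
      rw [hg, linEnd_apply, g.2.1] at h2
      rw [toAff_apply]
      exact (sub_left_injective h2).symm
    apply Subtype.ext
    apply toAff_injective
    rw [h1]
    exact (map_one toAff).symm
  refine (card_le_of_int _ hφinj).trans (Nat.factorial_le ?_)
  apply Nat.mul_le_mul_left
  -- the rank of `M` is at most `N`
  apply finrank_le_of_span M v
  intro w hw
  induction hw using Submodule.span_induction with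
  | mem w hw =>
    obtain ⟨y, hy, rfl⟩ := hw
    obtain ⟨c, hc⟩ := hv y hy.1 hy.2
    simp only
    rw [hc]
    apply Submodule.sum_mem
    intro i _
    have h1 : (c i : ℝ) • v i = c i • v i := by
      ext j
      simp [Rat.smul_def]
    rw [h1]
    exact Submodule.smul_mem _ _ (Submodule.subset_span ⟨i, rfl⟩)
  | zero => exact Submodule.zero_mem _
  | add a b _ _ ha hb => exact Submodule.add_mem _ ha hb
  | smul n a _ ha =>
    have h1 : n • a = (n : ℚ) • a := (Int.cast_smul_eq_zsmul ℚ n a).symm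
    rw [h1]
    exact Submodule.smul_mem _ _ ha

end Pool.Agent.Helper17
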