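import Mathlib

/-!
# Finite solvable complex linear groups have an abelian subgroup of index at most `16 ^ n * n!`
-/

set_option autoImplicit false

open Module
open scoped commutatorElement

namespace Pool.Agent.Helper17

/-- The bound on the index of an abelian subgroup. -/
def jordanBound (n : ℕ) : ℕ := 16 ^ n * n.factorial

theorem factorial_aux (a b : ℕ) (ha : 1 ≤ a) :
    a.factorial * (b + 1).factorial ≤ (a + b).factorial := by
  induction b with
  | zero => simp
  | succ b ih =>
    have h1 : (b + 1 + 1).factorial = (b + 2) * (b + 1).factorial := Nat.factorial_succ _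
    have h2 : (a + (b + 1)).factorial = (a + b + 1) * (a + b).factorial := Nat.factorial_succ _
    rw [h1, h2]
    calc a.factorial * ((b + 2) * (b + 1).factorial)
        = (b + 2) * (a.factorial * (b + 1).factorial) := by ring
      _ ≤ (a + b + 1) * (a + b).factorial := Nat.mul_le_mul (by omega) ih

theorem prod_factorial_le {ι : Type*} (s : Finset ι) (d : ι → ℕ) (hd : ∀ i ∈ s, 1 ≤ d i) :
    s.card ≤ ∑ i ∈ s, d i ∧
      s.card.factorial * ∏ i ∈ s, (d i).factorial ≤ (∑ i ∈ s, d i).factorial := by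
  classical
  induction s using Finset.induction_on with
  | empty => simp
  | insert a s ha ih =>
    obtain ⟨ih1, ih2⟩ := ih (fun i hi => hd i (Finset.mem_insert_of_mem hi))
    have h1 := hd a (Finset.mem_insert_self a s)
    rw [Finset.card_insert_of_notMem ha, Finset.prod_insert ha, Finset.sum_insert ha]
    refine ⟨by omega, ?_⟩
    have h2 : (s.card + 1).factorial = (s.card + 1) * s.card.factorial := Nat.factorial_succ _
    have h3 := factorial_aux (d a) (∑ i ∈ s, d i) h1
    have h4 : (∑ i ∈ s, d i + 1).factorial = (∑ i ∈ s, d i + 1) * (∑ i ∈ s, d i).factorial :=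
      Nat.factorial_succ _
    calc (s.card + 1).factorial * ((d a).factorial * ∏ i ∈ s, (d i).factorial)
        = (s.card + 1) * (d a).factorial * (s.card.factorial * ∏ i ∈ s, (d i).factorial) := by
          rw [h2]; ring
      _ ≤ (s.card + 1) * (d a).factorial * (∑ i ∈ s, d i).factorial :=
          Nat.mul_le_mul_left _ ih2
      _ ≤ (∑ i ∈ s, d i + 1) * (d a).factorial * (∑ i ∈ s, d i).factorial := by
          apply Nat.mul_le_mul_right
          apply Nat.mul_le_mul_right
          omega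
      _ = (d a).factorial * ((∑ i ∈ s, d i + 1) * (∑ i ∈ s, d i).factorial) := by ring
      _ = (d a).factorial * (∑ i ∈ s, d i + 1).factorial := by rw [h4]
      _ ≤ (d a + ∑ i ∈ s, d i).factorial := h3

/-- A finite group is generated by a set `S` with `2 ^ |S| ≤ |H|`. -/
theorem exists_small_generating {H : Type*} [Group H] [Finite H] :
    ∃ S : Finset H, Subgroup.closure (S : Set H) = ⊤ ∧ 2 ^ S.card ≤ Nat.card H := by
  classical
  have := Fintype.ofFinite H
  let P : Finset H → Prop := fun S => 2 ^ S.card ≤ Nat.card (Subgroup.closure (S : Set H))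
  have hne : (Finset.univ.filter P).Nonempty := by
    refine ⟨∅, ?_⟩
    rw [Finset.mem_filter]
    refine ⟨Finset.mem_univ _, ?_⟩
    simp only [P, Finset.card_empty, pow_zero]
    exact Nat.card_pos
  obtain ⟨S, hS, hmax⟩ := Finset.exists_max_image _ (fun S : Finset H => S.card) hne
  rw [Finset.mem_filter] at hS
  have hSP : 2 ^ S.card ≤ Nat.card (Subgroup.closure (S : Set H)) := hS.2
  refine ⟨S, ?_, hSP.trans (Subgroup.card_le_card_group _)⟩
  by_contra htop
  obtain ⟨x, -, hx⟩ := SetLike.exists_of_lt (lt_top_iff_ne_top.mpr htop)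
  have hxS : x ∉ S := fun h => hx (Subgroup.subset_closure h)
  have hle : Subgroup.closure (S : Set H) ≤ Subgroup.closure ((insert x S : Finset H) : Set H) :=
    Subgroup.closure_mono (by simp)
  have hcard : 2 * Nat.card (Subgroup.closure (S : Set H)) ≤
      Nat.card (Subgroup.closure ((insert x S : Finset H) : Set H)) := by
    obtain ⟨k, hk⟩ := Subgroup.card_dvd_of_le hle
    have hpos : 0 < Nat.card (Subgroup.closure ((insert x S : Finset H) : Set H)) := Nat.card_pos
    have hk0 : k ≠ 0 := by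
      rintro rfl
      rw [mul_zero] at hk
      omega
    have hk1 : k ≠ 1 := by
      rintro rfl
      rw [mul_one] at hk
      apply hx
      have h1 := Subgroup.eq_of_le_of_card_ge hle hk.le
      rw [h1]
      exact Subgroup.subset_closure (by simp)
    rw [hk, mul_comm]
    exact Nat.mul_le_mul_left _ (by omega)
  have hmem : insert x S ∈ Finset.univ.filter P := by
    rw [Finset.mem_filter]
    refine ⟨Finset.mem_univ _, ?_⟩
    simp only [P]
    rw [Finset.card_insert_of_notMem hxS, pow_succ, mul_comm]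
    exact (Nat.mul_le_mul_left 2 hSP).trans hcard
  have := hmax _ hmem
  rw [Finset.card_insert_of_notMem hxS] at this
  omega

theorem numeric_small : ∀ n < 64, ∀ k < 12, 1 ≤ n → 2 ^ k ≤ n ^ 2 →
    n ^ 2 * (n ^ 2) ^ k ≤ 16 ^ n * n.factorial := by
  decide +kernel

theorem numeric (n k : ℕ) (hn : 1 ≤ n) (hk : 2 ^ k ≤ n ^ 2) :
    n ^ 2 * (n ^ 2) ^ k ≤ jordanBound n := by
  unfold jordanBound
  rcases Nat.lt_or_ge n 64 with h | h
  · apply numeric_small n h k _ hn hk
    by_contra hk12
    push Not at hk12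
    have h1 : 2 ^ 12 ≤ 2 ^ k := Nat.pow_le_pow_right (by norm_num) hk12
    have h2 : n ^ 2 ≤ 63 ^ 2 := Nat.pow_le_pow_left (by omega) 2
    omega
  · obtain ⟨L, hL1, hL2⟩ : ∃ L, 2 ^ L ≤ n ∧ n < 2 ^ (L + 1) :=
      ⟨Nat.log 2 n, Nat.pow_log_le_self 2 (by omega), Nat.lt_pow_succ_log_self (by norm_num) n⟩
    have hL6 : 6 ≤ L := by
      by_contra hlt
      push Not at hlt
      have : 2 ^ (L + 1) ≤ 2 ^ 6 := Nat.pow_le_pow_right (by norm_num) (by omega)
      omega
    have hsq : (L + 1) ^ 2 ≤ 2 ^ L := by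
      clear hL1 hL2
      induction L, hL6 using Nat.le_induction with
      | base => norm_num
      | succ L hL ih =>
        rw [pow_succ 2 L]
        nlinarith
    have hk1 : k < 2 * (L + 1) := by
      have h1 : n ^ 2 < (2 ^ (L + 1)) ^ 2 := Nat.pow_lt_pow_left hL2 (by norm_num)
      rw [← pow_mul] at h1
      have h2 := lt_of_le_of_lt hk h1
      have := (Nat.pow_lt_pow_iff_right (by norm_num : 1 < 2)).mp h2
      omega
    have h1 : n ^ 2 * (n ^ 2) ^ k = (n ^ 2) ^ (k + 1) := by ring
    rw [h1]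
    have h2 : n ^ 2 ≤ 2 ^ (2 * (L + 1)) := by
      have : n ^ 2 ≤ (2 ^ (L + 1)) ^ 2 := Nat.pow_le_pow_left hL2.le 2
      rwa [← pow_mul, mul_comm (L + 1) 2] at this
    calc (n ^ 2) ^ (k + 1) ≤ (2 ^ (2 * (L + 1))) ^ (k + 1) := Nat.pow_le_pow_left h2 _
      _ ≤ (2 ^ (2 * (L + 1))) ^ (2 * (L + 1)) :=
          Nat.pow_le_pow_right (by positivity) (by omega)
      _ = 2 ^ (4 * (L + 1) ^ 2) := by rw [← pow_mul]; congr 1; ring
      _ ≤ 2 ^ (4 * n) := Nat.pow_le_pow_right (by norm_num) (by omega)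
      _ = 16 ^ n := by rw [pow_mul]; norm_num
      _ ≤ 16 ^ n * n.factorial := Nat.le_mul_of_pos_right _ (Nat.factorial_pos n)

section Primitive

variable {V : Type*} [AddCommGroup V] [Module ℂ V]
variable {G : Type*} [Group G] (ρ : Representation ℂ G V)

/-- The subgroup of elements acting by scalars. -/
def scalarSubgroup : Subgroup G where
  carrier := {g | ∃ c : ℂ, ρ g = c • 1}
  one_mem' := ⟨1, by simp⟩
  mul_mem' := by
    rintro a b ⟨c, hc⟩ ⟨d, hd⟩
    refine ⟨c * d, ?_⟩
    rw [map_mul, hc, hd, smul_mul_smul_comm, one_mul]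
  inv_mem' := by
    rintro a ⟨c, hc⟩
    refine ⟨c⁻¹, ?_⟩
    have h1 : ρ a⁻¹ * ρ a = 1 := by rw [← map_mul, inv_mul_cancel, map_one]
    rw [hc, mul_smul_comm, mul_one] at h1
    rcases eq_or_ne c 0 with rfl | hc0
    · rw [zero_smul] at h1
      have h2 : ∀ x : End ℂ V, x = 0 := fun x => by rw [← mul_one x, ← h1, mul_zero]
      rw [h2 (ρ a⁻¹), h2 1, smul_zero]
    · rw [← h1, smul_smul, inv_mul_cancel₀ hc0, one_smul]

theorem mem_scalarSubgroup {g : G} : g ∈ scalarSubgroup ρ ↔ ∃ c : ℂ, ρ g = c • 1 := Iff.rfl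

instance : (scalarSubgroup ρ).Normal where
  conj_mem := by
    rintro a ⟨c, hc⟩ g
    refine ⟨c, ?_⟩
    rw [map_mul, map_mul, hc, mul_smul_comm, mul_one, smul_mul_assoc, ← map_mul, mul_inv_cancel,
      map_one]

/-- Elements commuting with `T` modulo the normal subgroup `Z`. -/
def centMod (Z : Subgroup G) [Z.Normal] (T : Subgroup G) : Subgroup G :=
  (Subgroup.centralizer (T.map (QuotientGroup.mk' Z) : Set (G ⧸ Z))).comap (QuotientGroup.mk' Z)

theorem mem_centMod {Z : Subgroup G} [Z.Normal] {T : Subgroup G} {g : G} :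
    g ∈ centMod Z T ↔ ∀ t ∈ T, ∃ z ∈ Z, g * t = z * (t * g) := by
  unfold centMod
  rw [Subgroup.mem_comap, Subgroup.mem_centralizer_iff]
  constructor
  · intro h t ht
    have h1 := h (QuotientGroup.mk' Z t) ⟨t, ht, rfl⟩
    rw [← map_mul, ← map_mul] at h1
    refine ⟨g * t * (t * g)⁻¹, ?_, by group⟩
    have h2 := (QuotientGroup.eq (s := Z)).mp h1
    have h3 : g * t * (t * g)⁻¹ = (t * g) * ((t * g)⁻¹ * (g * t)) * (t * g)⁻¹ := by group
    rw [h3]
    exact Subgroup.Normal.conj_mem inferInstance _ h2 _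
  · rintro h _ ⟨t, ht, rfl⟩
    obtain ⟨z, hz, hzt⟩ := h t ht
    rw [← map_mul, ← map_mul, hzt, map_mul (QuotientGroup.mk' Z) z]
    have : QuotientGroup.mk' Z z = 1 := by
      rw [← MonoidHom.mem_ker, QuotientGroup.ker_mk']; exact hz
    rw [this, one_mul]

theorem le_centMod_symm {Z : Subgroup G} [Z.Normal] {S T : Subgroup G} (h : S ≤ centMod Z T) :
    T ≤ centMod Z S := by
  unfold centMod at h ⊢
  rw [← Subgroup.map_le_iff_le_comap] at h ⊢
  exact Subgroup.le_centralizer_iff.mp h

theorem centMod_sup {Z : Subgroup G} [Z.Normal] {S T₁ T₂ : Subgroup G}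
    (h₁ : S ≤ centMod Z T₁) (h₂ : S ≤ centMod Z T₂) : S ≤ centMod Z (T₁ ⊔ T₂) :=
  le_centMod_symm (sup_le (le_centMod_symm h₁) (le_centMod_symm h₂))

/-- The primitive case: every abelian normal subgroup acts by scalars. -/
theorem exists_comm_of_primitive [FiniteDimensional ℂ V] [Finite G] [Group.IsSolvable G]
    (hn : 1 ≤ finrank ℂ V)
    (hprim : ∀ N : Subgroup G, N.Normal → (∀ a ∈ N, ∀ b ∈ N, ρ (a * b) = ρ (b * a)) →
      ∀ a ∈ N, ∃ c : ℂ, ρ a = c • 1) :
    ∃ A : Subgroup G, (∀ a ∈ A, ∀ b ∈ A, ρ (a * b) = ρ (b * a)) ∧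
      A.index ≤ jordanBound (finrank ℂ V) := by
  classical
  have hnt : Nontrivial V := Module.nontrivial_of_finrank_pos (R := ℂ) (by omega)
  have hone : (1 : End ℂ V) ≠ 0 := one_ne_zero
  set Z := scalarSubgroup ρ with hZ
  have hZc : ∀ a ∈ Z, ∀ g : G, ρ (a * g) = ρ (g * a) := by
    rintro a ⟨c, hc⟩ g
    rw [map_mul, map_mul, hc, smul_mul_assoc, mul_smul_comm, one_mul, mul_one]
  refine ⟨Z, fun a ha b _ => hZc a ha b, ?_⟩
  -- a maximal normal subgroup that is abelian modulo `Z`
  let P : Subgroup G → Prop := fun T => T.Normal ∧ Z ≤ T ∧ T ≤ centMod Z T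
  have hPZ : P Z := by
    refine ⟨inferInstance, le_refl _, ?_⟩
    intro a ha
    rw [mem_centMod]
    intro t ht
    refine ⟨a * t * (t * a)⁻¹, ?_, by group⟩
    exact Z.mul_mem (Z.mul_mem ha ht) (Z.inv_mem (Z.mul_mem ht ha))
  obtain ⟨T, ⟨hTn, hZT, hTT⟩, hmax⟩ :=
    Set.Finite.exists_maximal (Set.toFinite {T | P T}) ⟨Z, hPZ⟩
  -- the centralizer of `T`
  let C : Subgroup G :=
    { carrier := {g | ∀ t ∈ T, ρ (g * t) = ρ (t * g)}
      one_mem' := by intro t _; rw [one_mul, mul_one]
      mul_mem' := by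
        intro a b ha hb t ht
        rw [mul_assoc, map_mul, hb t ht, ← map_mul, ← mul_assoc, map_mul, ha t ht, ← map_mul,
          mul_assoc]
      inv_mem' := by
        intro a ha t ht
        have h1 := ha t ht
        have h2 : ρ (a⁻¹ * (t * a) * a⁻¹) = ρ (a⁻¹ * (a * t) * a⁻¹) := by
          rw [map_mul, map_mul, ← h1, ← map_mul, ← map_mul]
        have h3 : a⁻¹ * (t * a) * a⁻¹ = a⁻¹ * t := by group
        have h4 : a⁻¹ * (a * t) * a⁻¹ = t * a⁻¹ := by group
        rw [h3, h4] at h2
        exact h2 }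
  have hCmem : ∀ g, g ∈ C ↔ ∀ t ∈ T, ρ (g * t) = ρ (t * g) := fun g => Iff.rfl
  have hCn : C.Normal := by
    refine ⟨fun a ha g t ht => ?_⟩
    have h1 : g⁻¹ * t * g ∈ T := by
      have := hTn.conj_mem t ht g⁻¹
      rwa [inv_inv] at this
    have h2 := (hCmem a).mp ha _ h1
    have h3 : g * a * g⁻¹ * t = g * (a * (g⁻¹ * t * g)) * g⁻¹ := by group
    have h4 : t * (g * a * g⁻¹) = g * ((g⁻¹ * t * g) * a) * g⁻¹ := by group
    rw [h3, h4, map_mul, map_mul, h2, ← map_mul, ← map_mul]
  have hCZ : C ≤ Z := by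
    -- the derived series of `C`
    let F : ℕ → Subgroup G := fun k => Nat.rec (motive := fun _ => Subgroup G) C (fun _ H => ⁅H, H⁆) k
    have hF0 : F 0 = C := rfl
    have hFs : ∀ k, F (k + 1) = ⁅F k, F k⁆ := fun k => rfl
    have hFn : ∀ k, (F k).Normal := by
      intro k
      induction k with
      | zero => exact hCn
      | succ k ih => rw [hFs]; exact @Subgroup.commutator_normal _ _ _ _ ih ih
    have hFC : ∀ k, F k ≤ C := by
      intro k
      induction k with
      | zero => exact le_refl _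
      | succ k ih =>
        rw [hFs]
        exact (@Subgroup.commutator_le_left _ _ (F k) (F k) (hFn k)).trans ih
    have hFd : ∀ k, F k ≤ derivedSeries G k := by
      intro k
      induction k with
      | zero => exact le_top
      | succ k ih =>
        rw [hFs, derivedSeries_succ]
        exact Subgroup.commutator_mono ih ih
    obtain ⟨m, hm⟩ := (Group.isSolvable_def G).mp inferInstance
    have hex : ∃ k, F k ≤ Z := ⟨m, (hFd m).trans (by rw [hm]; exact bot_le)⟩
    rcases Nat.eq_zero_or_pos (Nat.find hex) with h0 | hpos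
    · have := Nat.find_spec hex
      rw [h0] at this
      exact this
    · exfalso
      obtain ⟨j, hj⟩ : ∃ j, Nat.find hex = j + 1 := ⟨Nat.find hex - 1, by omega⟩
      have h1 : F (j + 1) ≤ Z := by
        have := Nat.find_spec hex
        rwa [hj] at this
      have h2 : ¬ F j ≤ Z := Nat.find_min hex (by omega)
      have hFj := hFn j
      have hFF : F j ≤ centMod Z (F j) := by
        intro a ha
        rw [mem_centMod]
        intro b hb
        refine ⟨a * b * a⁻¹ * b⁻¹, h1 ?_, by group⟩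
        rw [hFs]
        rw [← commutatorElement_def]
        exact Subgroup.commutator_mem_commutator ha hb
      have hFT : F j ≤ centMod Z T := by
        intro a ha
        rw [mem_centMod]
        intro t ht
        refine ⟨a * t * (t * a)⁻¹, ⟨1, ?_⟩, by group⟩
        rw [map_mul, (hCmem a).mp (hFC j ha) t ht, ← map_mul, mul_inv_cancel, map_one, one_smul]
      have hPT : P (T ⊔ F j) := by
        have hTn' : T.Normal := hTn
        refine ⟨@Subgroup.sup_normal _ _ T (F j) hTn hFj, hZT.trans le_sup_left, ?_⟩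
        apply sup_le
        · exact centMod_sup hTT (le_centMod_symm hFT)
        · exact centMod_sup hFT hFF
      have hle : F j ≤ T := le_sup_right.trans (hmax hPT le_sup_left)
      apply h2
      intro a ha
      exact hprim (F j) hFj (fun a ha b hb => (hCmem a).mp (hFC j ha) b (hle hb)) a ha
  -- the elements that commute with `T` modulo scalars
  set D := centMod Z T with hD
  have hZD : Z ≤ D := hZT.trans hTT
  have htr : ∀ g ∈ D, g ∉ Z → LinearMap.trace ℂ V (ρ g) = 0 := by
    intro g hg hgZ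
    have hgC : g ∉ C := fun h => hgZ (hCZ h)
    rw [hCmem] at hgC
    push Not at hgC
    obtain ⟨t, ht, hne⟩ := hgC
    obtain ⟨z, ⟨c, hc⟩, hz⟩ := mem_centMod.mp hg t ht
    have h1 : ρ (t⁻¹ * g * t) = c • ρ g := by
      have h2 : t⁻¹ * g * t = t⁻¹ * (z * (t * g)) := by rw [← hz]; group
      rw [h2, map_mul, map_mul ρ z, hc, smul_mul_assoc, one_mul, mul_smul_comm, ← map_mul]
      congr 2
      group
    have h2 : LinearMap.trace ℂ V (ρ (t⁻¹ * g * t)) = LinearMap.trace ℂ V (ρ g) := by
      rw [map_mul, LinearMap.trace_mul_comm, ← map_mul]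
      congr 2
      group
    rw [h1, map_smul, smul_eq_mul] at h2
    have hc1 : c ≠ 1 := by
      rintro rfl
      apply hne
      rw [hz, map_mul ρ z, hc, one_smul, one_mul]
    have h3 : (c - 1) * LinearMap.trace ℂ V (ρ g) = 0 := by rw [sub_mul, h2]; ring
    rcases mul_eq_zero.mp h3 with h | h
    · exact absurd (sub_eq_zero.mp h) hc1
    · exact h
  -- linear independence
  have hrelD : Z.relIndex D ≤ (finrank ℂ V) ^ 2 := by
    have hfin : Fintype (D ⧸ Z.subgroupOf D) := Fintype.ofFinite _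
    have hli : LinearIndependent ℂ (fun q : D ⧸ Z.subgroupOf D => ρ (q.out : G)) := by
      rw [Fintype.linearIndependent_iff]
      intro c hc q₀
      have h1 : ∑ q, c q * LinearMap.trace ℂ V (ρ ((q₀.out : G)⁻¹ * (q.out : G))) = 0 := by
        have h2 : LinearMap.trace ℂ V (ρ (q₀.out : G)⁻¹ * ∑ q, c q • ρ (q.out : G)) = 0 := by
          rw [hc, mul_zero, map_zero]
        rw [Finset.mul_sum, map_sum] at h2
        rw [← h2]
        apply Finset.sum_congr rfl
        intro q _
        rw [mul_smul_comm, map_smul, smul_eq_mul, map_mul]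
      rw [Finset.sum_eq_single q₀] at h1
      · rw [inv_mul_cancel, map_one, LinearMap.trace_one] at h1
        rcases mul_eq_zero.mp h1 with h | h
        · exact h
        · exfalso
          have : (finrank ℂ V : ℂ) ≠ 0 := by
            exact_mod_cast (show finrank ℂ V ≠ 0 by omega)
          exact this h
      · intro q _ hq
        rw [htr _ (D.mul_mem (D.inv_mem q₀.out.2) q.out.2), mul_zero]
        intro hmem
        apply hq
        rw [← QuotientGroup.out_eq' q, ← QuotientGroup.out_eq' q₀]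
        symm
        rw [QuotientGroup.eq, Subgroup.mem_subgroupOf]
        exact hmem
      · intro h
        exact absurd (Finset.mem_univ _) h
    have h1 := hli.fintype_card_le_finrank
    rw [Module.finrank_linearMap] at h1
    rw [Subgroup.relIndex, Subgroup.index, Nat.card_eq_fintype_card, sq]
    exact h1
  -- the index of `D`
  let Q := T.map (QuotientGroup.mk' Z)
  have hQcard : Nat.card Q ≤ (finrank ℂ V) ^ 2 := by
    have h1 : Nat.card Q = Z.relIndex T := by
      have h2 := Subgroup.relIndex_map_map (QuotientGroup.mk' Z) (⊥ : Subgroup G) T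
      rw [Subgroup.map_bot, Subgroup.relIndex_bot_left, QuotientGroup.ker_mk', bot_sup_eq] at h2
      rw [h2]
      rw [sup_of_le_left hZT]
    rw [h1]
    refine le_trans ?_ hrelD
    rw [← Subgroup.relIndex_mul_relIndex Z T D hZT hTT]
    apply Nat.le_mul_of_pos_right
    exact Nat.pos_of_ne_zero (by
      have : Finite (D ⧸ T.subgroupOf D) := inferInstance
      exact Nat.card_pos.ne')
  obtain ⟨S, hSc, hScard⟩ := exists_small_generating (H := Q)
  have hDindex : D.index ≤ ((finrank ℂ V) ^ 2) ^ S.card := by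
    let f : G ⧸ D → (S → Q) := fun q s =>
      ⟨QuotientGroup.mk' Z q.out * (s : Q) * (QuotientGroup.mk' Z q.out)⁻¹, by
        obtain ⟨t, ht, hts⟩ := (s : Q).2
        refine ⟨q.out * t * q.out⁻¹, hTn.conj_mem t ht _, ?_⟩
        rw [map_mul, map_mul, hts, map_inv]⟩
    have hf : Function.Injective f := by
      intro q q' hqq
      rw [← QuotientGroup.out_eq' q, ← QuotientGroup.out_eq' q', QuotientGroup.eq]
      change QuotientGroup.mk' Z (q.out⁻¹ * q'.out) ∈
        Subgroup.centralizer (T.map (QuotientGroup.mk' Z) : Set (G ⧸ Z))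
      have hcl : (Q : Subgroup (G ⧸ Z)) ≤
          Subgroup.centralizer {QuotientGroup.mk' Z (q.out⁻¹ * q'.out)} := by
        have h1 : (Subgroup.closure (S : Set Q)).map Q.subtype = Q := by
          rw [hSc, ← MonoidHom.range_eq_map, Subgroup.range_subtype]
        rw [← h1, MonoidHom.map_closure, Subgroup.closure_le]
        rintro _ ⟨s, hs, rfl⟩
        rw [SetLike.mem_coe, Subgroup.mem_centralizer_iff]
        intro h hh
        rw [Set.mem_singleton_iff] at hh
        rw [hh]
        have h2 := congrArg (fun g : Q => (g : G ⧸ Z)) (congrFun hqq ⟨s, hs⟩)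
        simp only [f] at h2
        rw [map_mul, map_inv, Subgroup.coe_subtype]
        have h3 : (QuotientGroup.mk' Z q.out)⁻¹ * QuotientGroup.mk' Z q'.out * (s : G ⧸ Z) =
            (QuotientGroup.mk' Z q.out)⁻¹ * (QuotientGroup.mk' Z q'.out * (s : G ⧸ Z) *
              (QuotientGroup.mk' Z q'.out)⁻¹) * QuotientGroup.mk' Z q'.out := by group
        rw [h3, ← h2]
        group
      rw [Subgroup.mem_centralizer_iff]
      intro h hh
      have h2 := hcl hh
      rw [Subgroup.mem_centralizer_iff] at h2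
      exact (h2 _ rfl).symm
    have h1 : Nat.card (G ⧸ D) ≤ Nat.card (S → Q) := Nat.card_le_card_of_injective f hf
    rw [Nat.card_fun, Nat.card_eq_fintype_card (α := S), Fintype.card_coe] at h1
    exact h1.trans (Nat.pow_le_pow_left hQcard _)
  rw [← Subgroup.relIndex_mul_index hZD]
  exact (Nat.mul_le_mul hrelD hDindex).trans (numeric _ _ hn (hScard.trans hQcard))

/-- The joint eigenspace of a subgroup. -/
def jointEigen (N : Subgroup G) (χ : N → ℂ) : Submodule ℂ V :=
  ⨅ a : N, Module.End.eigenspace (ρ (a : G)) (χ a)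

theorem mem_jointEigen {N : Subgroup G} {χ : N → ℂ} {v : V} :
    v ∈ jointEigen ρ N χ ↔ ∀ a : N, ρ (a : G) v = χ a • v := by
  unfold jointEigen
  rw [Submodule.mem_iInf]
  exact forall_congr' fun a => Module.End.mem_eigenspace_iff

theorem isSemisimple_of_finite [Finite G] (g : G) : Module.End.IsSemisimple (ρ g) := by
  have hp : Squarefree (Polynomial.X ^ (Nat.card G) - 1 : Polynomial ℂ) := by
    apply Polynomial.Separable.squarefree
    apply Polynomial.X_pow_sub_one_separable_iff.mpr
    exact_mod_cast Nat.card_pos.ne'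
  apply Module.End.isSemisimple_of_squarefree_aeval_eq_zero hp
  rw [map_sub, map_pow, Polynomial.aeval_X, map_one, ← map_pow, pow_card_eq_one', map_one,
    sub_self]

theorem jointEigen_eq [Finite G] (N : Subgroup G) (χ : N → ℂ) :
    jointEigen ρ N χ = ⨅ a : N, Module.End.maxGenEigenspace (ρ (a : G)) (χ a) := by
  unfold jointEigen
  exact iInf_congr fun a =>
    ((isSemisimple_of_finite ρ (a : G)).isFinitelySemisimple.maxGenEigenspace_eq_eigenspace _).symm

theorem jointEigen_indep [Finite G] (N : Subgroup G)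
    (hN : ∀ a ∈ N, ∀ b ∈ N, ρ (a * b) = ρ (b * a)) : iSupIndep (jointEigen ρ N) := by
  have h1 : jointEigen ρ N = fun χ => ⨅ a : N, Module.End.maxGenEigenspace (ρ (a : G)) (χ a) :=
    funext fun χ => jointEigen_eq ρ N χ
  rw [h1]
  apply Module.End.independent_iInf_maxGenEigenspace_of_forall_mapsTo
  intro i j φ
  apply Module.End.mapsTo_maxGenEigenspace_of_comm
  change ρ (j : G) * ρ (i : G) = ρ (i : G) * ρ (j : G)
  rw [← map_mul, ← map_mul]
  exact hN _ j.2 _ i.2

theorem jointEigen_iSup [Finite G] [FiniteDimensional ℂ V] (N : Subgroup G)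
    (hN : ∀ a ∈ N, ∀ b ∈ N, ρ (a * b) = ρ (b * a)) : iSup (jointEigen ρ N) = ⊤ := by
  have h1 : jointEigen ρ N = fun χ => ⨅ a : N, Module.End.maxGenEigenspace (ρ (a : G)) (χ a) :=
    funext fun χ => jointEigen_eq ρ N χ
  rw [h1]
  apply Module.End.iSup_iInf_maxGenEigenspace_eq_top_of_iSup_maxGenEigenspace_eq_top_of_commute
  · intro i j _
    change ρ (i : G) * ρ (j : G) = ρ (j : G) * ρ (i : G)
    rw [← map_mul, ← map_mul]
    exact hN _ i.2 _ j.2
  · intro i
    exact Module.End.iSup_maxGenEigenspace_eq_top _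

theorem sum_finrank_eq {ι : Type*} [FiniteDimensional ℂ V] (W : ι → Submodule ℂ V)
    (hind : iSupIndep W) (htop : iSup W = ⊤) (hfin : {i | W i ≠ ⊥}.Finite) :
    ∑ i ∈ hfin.toFinset, finrank ℂ (W i) = finrank ℂ V := by
  classical
  have h := (DirectSum.isInternal_submodule_iff_iSupIndep_and_iSup_eq_top W).mpr ⟨hind, htop⟩
  have h1 := LinearMap.trace_eq_sum_trace_restrict' h hfin (f := LinearMap.id)
    (fun i x hx => hx)
  rw [LinearMap.trace_id] at h1
  have h2 : ∀ i, LinearMap.trace ℂ (W i)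
      ((LinearMap.id : V →ₗ[ℂ] V).restrict (fun x (hx : x ∈ W i) => hx)) =
      (finrank ℂ (W i) : ℂ) := by
    intro i
    have h3 : (LinearMap.id : V →ₗ[ℂ] V).restrict (fun x (hx : x ∈ W i) => hx) =
        LinearMap.id := by
      ext x
      rfl
    rw [h3, LinearMap.trace_id]
  have h4 : (finrank ℂ V : ℂ) = ∑ i ∈ hfin.toFinset, (finrank ℂ (W i) : ℂ) := by
    rw [h1]
    exact Finset.sum_congr rfl fun i _ => h2 i
  exact_mod_cast h4.symm

/-- Restriction of a representation to a subgroup and a stable subspace. -/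
def restrictRep (K : Subgroup G) (W : Submodule ℂ V) (h : ∀ k ∈ K, ∀ v ∈ W, ρ k v ∈ W) :
    Representation ℂ K W where
  toFun k := (ρ (k : G)).restrict (h k k.2)
  map_one' := by
    ext v
    simp
  map_mul' a b := by
    ext v
    simp

theorem restrictRep_apply (K : Subgroup G) (W : Submodule ℂ V)
    (h : ∀ k ∈ K, ∀ v ∈ W, ρ k v ∈ W) (k : K) (v : W) :
    ((restrictRep ρ K W h k v : W) : V) = ρ (k : G) (v : V) := rfl

/-- Conjugation on the functions on a normal subgroup. -/
def conjFun (N : Subgroup G) [N.Normal] (g : G) (χ : N → ℂ) : N → ℂ :=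
  fun a => χ (MulAut.conjNormal g⁻¹ a)

theorem conjFun_mul (N : Subgroup G) [N.Normal] (g h : G) (χ : N → ℂ) :
    conjFun N (g * h) χ = conjFun N g (conjFun N h χ) := by
  funext a
  unfold conjFun
  congr 1
  rw [mul_inv_rev, map_mul]
  rfl

theorem conjFun_one (N : Subgroup G) [N.Normal] (χ : N → ℂ) :
    conjFun N 1 χ = χ := by
  funext a
  unfold conjFun
  rw [inv_one, map_one]
  rfl

theorem conjFun_mem (N : Subgroup G) [N.Normal] (g : G) (χ : N → ℂ) {v : V}
    (hv : v ∈ jointEigen ρ N χ) : ρ g v ∈ jointEigen ρ N (conjFun N g χ) := by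
  rw [mem_jointEigen] at hv ⊢
  intro a
  have h1 := hv (MulAut.conjNormal g⁻¹ a)
  rw [MulAut.conjNormal_apply, inv_inv] at h1
  have h2 : (a : G) * g = g * (g⁻¹ * (a : G) * g) := by group
  have h3 : ρ (a : G) (ρ g v) = ρ g (ρ (g⁻¹ * (a : G) * g) v) := by
    rw [← Module.End.mul_apply, ← map_mul, h2, map_mul, Module.End.mul_apply]
  rw [h3, h1, map_smul]
  rfl

theorem conjFun_ne_bot (N : Subgroup G) [N.Normal] (g : G) (χ : N → ℂ)
    (h : jointEigen ρ N χ ≠ ⊥) : jointEigen ρ N (conjFun N g χ) ≠ ⊥ := by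
  obtain ⟨v, hv, hv0⟩ := Submodule.exists_mem_ne_zero_of_ne_bot h
  intro hbot
  have h1 := conjFun_mem ρ N g χ hv
  rw [hbot, Submodule.mem_bot] at h1
  apply hv0
  have h2 : ρ g⁻¹ (ρ g v) = v := by
    rw [← Module.End.mul_apply, ← map_mul, inv_mul_cancel, map_one, Module.End.one_apply]
  rw [← h2, h1, map_zero]

/-- The permutation action on the set of nonzero joint eigenspaces. -/
def conjPerm (N : Subgroup G) [N.Normal] : G →* Equiv.Perm {χ : N → ℂ // jointEigen ρ N χ ≠ ⊥} where
  toFun g :=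
    { toFun := fun χ => ⟨conjFun N g χ.1, conjFun_ne_bot ρ N g χ.1 χ.2⟩
      invFun := fun χ => ⟨conjFun N g⁻¹ χ.1, conjFun_ne_bot ρ N g⁻¹ χ.1 χ.2⟩
      left_inv := by
        intro χ
        apply Subtype.ext
        change conjFun N g⁻¹ (conjFun N g χ.1) = χ.1
        rw [← conjFun_mul, inv_mul_cancel, conjFun_one]
      right_inv := by
        intro χ
        apply Subtype.ext
        change conjFun N g (conjFun N g⁻¹ χ.1) = χ.1
        rw [← conjFun_mul, mul_inv_cancel, conjFun_one] }
  map_one' := by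
    ext1 χ
    apply Subtype.ext
    exact conjFun_one N χ.1
  map_mul' g h := by
    ext1 χ
    apply Subtype.ext
    exact conjFun_mul N g h χ.1

end Primitive

theorem exists_comm_of_finrank (n : ℕ) : ∀ {V : Type*} [AddCommGroup V] [Module ℂ V]
    [FiniteDimensional ℂ V] {G : Type*} [Group G] [Finite G] [Group.IsSolvable G]
    (ρ : Representation ℂ G V), finrank ℂ V = n →
    ∃ A : Subgroup G, (∀ a ∈ A, ∀ b ∈ A, ρ (a * b) = ρ (b * a)) ∧ A.index ≤ jordanBound n := by
  classical
  induction n using Nat.strong_induction_on with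
  | _ n ih =>
  intro V _ _ _ G _ _ _ ρ hn
  rcases Nat.eq_zero_or_pos n with h0 | hpos
  · have hsub : Subsingleton V := Module.finrank_zero_iff.mp (hn.trans h0)
    refine ⟨⊤, fun a _ b _ => ?_, ?_⟩
    · ext v
      exact Subsingleton.elim _ _
    · rw [Subgroup.index_top]
      unfold jordanBound
      exact Nat.mul_pos (by positivity) (Nat.factorial_pos n)
  by_cases hprim : ∀ N : Subgroup G, N.Normal → (∀ a ∈ N, ∀ b ∈ N, ρ (a * b) = ρ (b * a)) →
      ∀ a ∈ N, ∃ c : ℂ, ρ a = c • 1
  · rw [← hn]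
    exact exists_comm_of_primitive ρ (by omega) hprim
  push Not at hprim
  obtain ⟨N, hNn, hNc, a₀, ha₀, hns⟩ := hprim
  have hind := jointEigen_indep ρ N hNc
  have htop := jointEigen_iSup ρ N hNc
  have hfin : {χ | jointEigen ρ N χ ≠ ⊥}.Finite := WellFoundedGT.finite_ne_bot_of_iSupIndep hind
  have hsum := sum_finrank_eq (jointEigen ρ N) hind htop hfin
  have hfS : Finite {χ : N → ℂ // jointEigen ρ N χ ≠ ⊥} := hfin
  have hftS : Fintype {χ : N → ℂ // jointEigen ρ N χ ≠ ⊥} := Fintype.ofFinite _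
  set K := (conjPerm ρ N).ker with hK
  have hKst : ∀ χ : {χ : N → ℂ // jointEigen ρ N χ ≠ ⊥}, ∀ k ∈ K, ∀ v ∈ jointEigen ρ N χ.1,
      ρ k v ∈ jointEigen ρ N χ.1 := by
    intro χ k hk v hv
    have h1 := conjFun_mem ρ N k χ.1 hv
    have h2 : conjPerm ρ N k χ = χ := by
      rw [MonoidHom.mem_ker.mp hk]
      rfl
    have h3 : conjFun N k χ.1 = χ.1 := congrArg Subtype.val h2
    rwa [h3] at h1
  have hlt : ∀ χ : {χ : N → ℂ // jointEigen ρ N χ ≠ ⊥}, finrank ℂ (jointEigen ρ N χ.1) < n := by
    intro χ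
    rw [← hn]
    apply Submodule.finrank_lt
    intro htopχ
    apply hns (χ.1 ⟨a₀, ha₀⟩)
    ext v
    have hv : v ∈ jointEigen ρ N χ.1 := by rw [htopχ]; exact Submodule.mem_top
    have := (mem_jointEigen ρ).mp hv ⟨a₀, ha₀⟩
    rw [this]
    rfl
  choose A hAc hAi using fun χ : {χ : N → ℂ // jointEigen ρ N χ ≠ ⊥} =>
    ih _ (hlt χ) (restrictRep ρ K (jointEigen ρ N χ.1) (hKst χ)) rfl
  refine ⟨(⨅ χ, A χ).map K.subtype, ?_, ?_⟩
  · rintro _ ⟨a, ha, rfl⟩ _ ⟨b, hb, rfl⟩
    have ha' : ∀ χ, a ∈ A χ := Subgroup.mem_iInf.mp ha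
    have hb' : ∀ χ, b ∈ A χ := Subgroup.mem_iInf.mp hb
    rw [Subgroup.coe_subtype]
    have h1 : (⊤ : Submodule ℂ V) ≤
        LinearMap.ker (ρ ((a : G) * (b : G)) - ρ ((b : G) * (a : G))) := by
      rw [← htop]
      apply iSup_le
      intro χ
      by_cases hχ : jointEigen ρ N χ = ⊥
      · rw [hχ]
        exact bot_le
      · intro v hv
        rw [LinearMap.mem_ker, LinearMap.sub_apply, sub_eq_zero]
        have h2 := LinearMap.congr_fun (hAc ⟨χ, hχ⟩ a (ha' _) b (hb' _)) ⟨v, hv⟩
        have h3 := congrArg Subtype.val h2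
        rw [restrictRep_apply, restrictRep_apply] at h3
        exact h3
    ext v
    have h2 := h1 (Submodule.mem_top (x := v))
    rw [LinearMap.mem_ker, LinearMap.sub_apply, sub_eq_zero] at h2
    exact h2
  · rw [Subgroup.index_map_subtype]
    have hKi : K.index ≤ hfin.toFinset.card.factorial := by
      rw [hK, Subgroup.index_ker]
      have h1 : Nat.card (conjPerm ρ N).range ≤
          Nat.card (Equiv.Perm {χ : N → ℂ // jointEigen ρ N χ ≠ ⊥}) :=
        Subgroup.card_le_card_group _
      refine h1.trans (le_of_eq ?_)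
      rw [Nat.card_perm]
      have h2 := Set.ncard_eq_toFinset_card {χ | jointEigen ρ N χ ≠ ⊥} hfin
      rw [← h2]
      rfl
    have hIi : (⨅ χ, A χ).index ≤
        ∏ χ ∈ hfin.toFinset, jordanBound (finrank ℂ (jointEigen ρ N χ)) := by
      have h1 := Subgroup.index_iInf_le A
      refine h1.trans ?_
      refine (Finset.prod_le_prod' fun χ _ => hAi χ).trans (le_of_eq ?_)
      symm
      apply Finset.prod_subtype
      intro χ
      rw [Set.Finite.mem_toFinset]
      exact Iff.rfl
    have hprod : ∏ χ ∈ hfin.toFinset, jordanBound (finrank ℂ (jointEigen ρ N χ)) =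
        16 ^ n * ∏ χ ∈ hfin.toFinset, (finrank ℂ (jointEigen ρ N χ)).factorial := by
      unfold jordanBound
      rw [Finset.prod_mul_distrib, Finset.prod_pow_eq_pow_sum, hsum, hn]
    have hd : ∀ χ ∈ hfin.toFinset, 1 ≤ finrank ℂ (jointEigen ρ N χ) := by
      intro χ hχ
      rw [Set.Finite.mem_toFinset] at hχ
      rw [Nat.one_le_iff_ne_zero]
      intro h
      exact hχ (Submodule.finrank_eq_zero.mp h)
    have hfac := (prod_factorial_le hfin.toFinset (fun χ => finrank ℂ (jointEigen ρ N χ)) hd).2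
    rw [hsum, hn] at hfac
    calc (⨅ χ, A χ).index * K.index
        ≤ (16 ^ n * ∏ χ ∈ hfin.toFinset, (finrank ℂ (jointEigen ρ N χ)).factorial) *
          hfin.toFinset.card.factorial := by
          rw [← hprod]
          exact Nat.mul_le_mul hIi hKi
      _ = 16 ^ n * (hfin.toFinset.card.factorial *
          ∏ χ ∈ hfin.toFinset, (finrank ℂ (jointEigen ρ N χ)).factorial) := by ring
      _ ≤ 16 ^ n * n.factorial := Nat.mul_le_mul_left _ hfac

end Pool.Agent.Helper17
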